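import Pool.Agent.Work.MP_f2148a_nt.M56.G1.Main
import Pool.Agent.Work.MP_f2148a_nt.M56.G3.Der
import Pool.Agent.Work.MP_f2148a_nt.M56.GR.Greedy

set_option autoImplicit false

/-!
# MP_f2148a_nt, block GL (box theorem, large range `Q ≥ K^C₁`), definitions. Architect helper13.

`u = d₁/d₂`, `r = υ/ξ`; the rows are the values at the points of the iterates of the derivation `W2 l c` of
`ℝ[u, r]` (`u ↦ -j(u)`, `r ↦ h(u,r)/2`) on the monomials `u^a r^(N-j)`, `a ≤ M`, `j ≤ N`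
(`j` is the exponent of `ξ`). The index set is `Fin ((M+1)(N+1))`.
-/

namespace Pool.Agent.Work.MP_f2148a_nt.M56.GL

open G4

/-- the index of the monomials `(a, j)`, `a ≤ M`, `j ≤ N` -/
abbrev ix (M N : ℕ) : Fin ((M + 1) * (N + 1)) ≃ Fin (M + 1) × Fin (N + 1) := finProdFinEquiv.symm

/-- the monomial `u^a r^(N-j)` -/
noncomputable def mo (M N : ℕ) (a : Fin ((M + 1) * (N + 1))) : MvPolynomial (Fin 2) ℝ :=
  MvPolynomial.X 0 ^ ((ix M N a).1 : ℕ) * MvPolynomial.X 1 ^ (N - ((ix M N a).2 : ℕ))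

/-- the row of order `i` at the point `(u, r)` -/
noncomputable def rowW (l c : ℝ) (M N : ℕ) (u r : ℝ) (i : ℕ) (a : Fin ((M + 1) * (N + 1))) : ℝ :=
  MvPolynomial.aeval ![u, r] ((fun x => W2 l c x)^[i] (mo M N a))

/-- The (dehomogenized) Hessian of `û p₁ + p₂`. -/
def Hf {A : Type*} [CommRing A] (l c u r : A) : A :=
  (12 * u + 12 * r - 12 * l * u * r ^ 2) *
    (-12 * l * u - 12 * c * u * r - (36 * l ^ 2 * u + 12 * c) * r ^ 2) -
  (6 - 24 * l * u * r - 6 * c * u * r ^ 2) ^ 2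

open Polynomial in
/-- `P(u) = -j(u)` -/
noncomputable def PP (l c : ℝ) : ℝ[X] := -jf (C l) (C c) X

open Polynomial in
/-- `B(u, r) = h(u, r) / 2` -/
noncomputable def BB (l c : ℝ) : ℝ[X][X] := C (C (1 / 2)) * hf (C (C l)) (C (C c)) (C X) X

open Polynomial in
/-- the cube of the Hessian -/
noncomputable def Ph1 (l c : ℝ) : ℝ[X][X] := Hf (C (C l)) (C (C c)) (C X) X ^ 3

open Polynomial in
/-- `γ³ j` -/
noncomputable def Ph2 (l c : ℝ) : ℝ[X][X] :=
  (C X * pa (C (C l)) (C (C c)) X + pb (C (C l)) (C (C c)) X) ^ 3 * jf (C (C l)) (C (C c)) (C X)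

open Polynomial in
/-- the common multiplier -/
noncomputable def Lm (l c : ℝ) : ℝ[X][X] :=
  3 * bf (C (C l)) (C (C c)) (C X) X - (3 * (16 * C (C l) ^ 3 - C (C c) ^ 2) * C X ^ 2
    + 12 * C (C l) * C (C c) * C X + 3 * C (C l) ^ 2)

open Polynomial in
/-- `ℝ[u, r] → ℝ[u][r]` -/
noncomputable def io : MvPolynomial (Fin 2) ℝ →ₐ[ℝ] ℝ[X][X] :=
  MvPolynomial.aeval ![C X, X]

end Pool.Agent.Work.MP_f2148a_nt.M56.GL
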