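import Pool.Agent.Work.MP_f2148a_nt.M56.GL.Zero
import Pool.Agent.Work.MP_f2148a_nt.M56.LD.TDet

set_option autoImplicit false

/-!
# GL/Integ: integrality of the determinant (all proved from LD/TDet)
-/

namespace Pool.Agent.Work.MP_f2148a_nt.M56.GL

open G4 G3 MvPolynomial

/-- the real coordinate `d₁` -/
noncomputable def D1 (α τ s : ℝ) : ℝ := s * τ / (3 * α)
/-- the real coordinate `d₂` -/
noncomputable def D2 (α ω τ s t : ℝ) : ℝ := -(2 * ω * s) / (3 * α * τ) + t * α / (3 * τ)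
/-- the real coordinate `ξ` -/
noncomputable def XI (ω τ X Y : ℝ) : ℝ := (X + ω * Y) / τ

/-- the frame -/
noncomputable def frm (α ω τ : ℝ) : LD.Frame where
  e₁ := 3 * α / τ
  e₂ := 6 * ω / (α * τ)
  e₃ := 3 * τ / α
  k₁ := τ
  k₂ := -ω / τ
  k₃ := 1 / τ

/-- the monomials -/
noncomputable def mo4 (R : Type*) [CommRing R] (M N : ℕ) (e : LD.E M N) : MvPolynomial (Fin 4) R :=
  X 0 ^ (e.1 : ℕ) * X 1 ^ (M - (e.1 : ℕ)) * (X 2 ^ (e.2 : ℕ) * X 3 ^ (N - (e.2 : ℕ)))

theorem mo4_eq (α ω τ : ℝ) (hα : α ≠ 0) (hτ : τ ≠ 0) (M N : ℕ) (e' : LD.E M N) :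
    mo4 ℝ M N e' = ∑ e, C (LD.rlM (frm α ω τ) M N e e') * sub α ω τ (mo4 ℝ M N e) := by
  refine MvPolynomial.funext fun z => ?_
  have hz : z = ![z 0, z 1, z 2, z 3] := by
    funext i
    fin_cases i <;> rfl
  rw [hz, map_sum]
  have h1 : ∀ e : LD.E M N, eval ![z 0, z 1, z 2, z 3] (C (LD.rlM (frm α ω τ) M N e e') *
      sub α ω τ (mo4 ℝ M N e)) =
      LD.mon M N (D1 α τ (z 0)) (D2 α ω τ (z 0) (z 1)) (XI ω τ (z 2) (z 3)) (τ * z 3) e *
        LD.rlM (frm α ω τ) M N e e' := by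
    intro e
    rw [map_mul, eval_C, eval_sub, mul_comm]
    congr 1
    unfold mo4 LD.mon
    simp only [map_mul, map_pow, eval_X]
    rfl
  rw [Finset.sum_congr rfl fun e _ => h1 e, LD.mon_rlM]
  unfold mo4 LD.mon frm D1 D2 XI
  simp only [map_mul, map_pow, eval_X, Matrix.cons_val_zero, Matrix.cons_val_one, Matrix.cons_val]
  have e0 : 3 * α / τ * (z 0 * τ / (3 * α)) = z 0 := by field_simp
  have e1 : 6 * ω / (α * τ) * (z 0 * τ / (3 * α)) +
      3 * τ / α * (-(2 * ω * z 0) / (3 * α * τ) + z 1 * α / (3 * τ)) = z 1 := by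
    field_simp
    ring
  have e2 : τ * ((z 2 + ω * z 3) / τ) + -ω / τ * (τ * z 3) = z 2 := by
    field_simp
    ring
  have e3 : 1 / τ * (τ * z 3) = z 3 := by field_simp
  rw [e0, e1, e2, e3]

theorem iter_sum {R : Type*} [CommRing R] (D : Derivation R (MvPolynomial (Fin 4) R)
    (MvPolynomial (Fin 4) R)) (k : ℕ) {ι : Type*} (S : Finset ι) (a : ι → R)
    (f : ι → MvPolynomial (Fin 4) R) : (fun z => D z)^[k] (∑ i ∈ S, C (a i) * f i) =
    ∑ i ∈ S, C (a i) * (fun z => D z)^[k] (f i) := by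
  induction k with
  | zero => rfl
  | succ k ih =>
    rw [Function.iterate_succ_apply', ih, map_sum]
    refine Finset.sum_congr rfl fun i _ => ?_
    rw [Derivation.leibniz, derivation_C, smul_zero, add_zero, smul_eq_mul,
      Function.iterate_succ_apply']

theorem cast_eval (z : Fin 4 → ℤ) (z' : Fin 4 → ℝ) (h : ∀ i, z' i = z i)
    (p : MvPolynomial (Fin 4) ℤ) : ((eval z p : ℤ) : ℝ) = eval z' (map (Int.castRingHom ℝ) p) := by
  induction p using MvPolynomial.induction_on with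
  | C a => rw [map_C, eval_C, eval_C, eq_intCast]
  | add p q hp hq => rw [map_add, map_add, map_add, Int.cast_add, hp, hq]
  | mul_X p i hp => rw [map_mul, map_mul, map_mul, Int.cast_mul, hp, map_X, eval_X, eval_X, h]

theorem integ {x y α β : ℤ} {ω τ Δ l c : ℝ} (hα : 1 ≤ α) (hτ : 0 < τ)
    (hd : Dep (Z0 x y α β) ω τ Δ l c) (M N : ℕ) {κ : Type*} (s t X' Y' : κ → ℤ)
    (hΔ : Δ ≠ 0) (ht : ∀ i, t i ≠ 0) (h2 : ∀ i, D2 α ω τ (s i) (t i) ≠ 0)
    (hξ : ∀ i, XI ω τ (X' i) (Y' i) ≠ 0) (u r : κ → ℝ)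
    (hu : ∀ i, u i = D1 α τ (s i) / D2 α ω τ (s i) (t i))
    (hr : ∀ i, r i = τ * Y' i / XI ω τ (X' i) (Y' i))
    (sel : Fin ((M + 1) * (N + 1)) → κ × ℕ)
    (hdet : (Matrix.of fun a => rowW l c M N (u (sel a).1) (r (sel a).1) (sel a).2).det ≠ 0)
    (hsp : ∀ p : κ × ℕ, rowW l c M N (u p.1) (r p.1) p.2 ∈ GR.spanLe (fun p : κ × ℕ => p.2)
        (fun p => rowW l c M N (u p.1) (r p.1) p.2) sel p.2) :
    1 ≤ 9 ^ ((N + 1) * (M * (M + 1) / 2)) *
      (∏ a, ((78732 * |Δ| ^ 3 * |t (sel a).1 / 9 * D2 α ω τ (s (sel a).1) (t (sel a).1)|) ^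
        (sel a).2 * (|D2 α ω τ (s (sel a).1) (t (sel a).1)| ^ M *
          |XI ω τ (X' (sel a).1) (Y' (sel a).1)| ^ N))) *
      |(Matrix.of fun a => rowW l c M N (u (sel a).1) (r (sel a).1) (sel a).2).det| := by
  obtain ⟨q1, q2, q3, q4⟩ := of_dep hα hτ hd
  have hα0 : (α : ℝ) ≠ 0 := by
    have : (0 : ℝ) < α := by exact_mod_cast hα
    exact this.ne'
  -- the relation between the rows
  have hrel : ∀ i : κ, ∃ C : ℕ → ℕ → ℝ,
      (∀ k, C k k = (-(t i / 9) * D2 α ω τ (s i) (t i)) ^ k *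
        (D2 α ω τ (s i) (t i) ^ M * XI ω τ (X' i) (Y' i) ^ N)) ∧
      ∀ k (e : LD.E M N),
        aeval ![D1 α τ (s i), D2 α ω τ (s i) (t i), XI ω τ (X' i) (Y' i), τ * Y' i]
          ((fun z => V4 l c ((1 : ℝ) * τ / (3 * α))
            (-(2 * ω * 1) / (3 * α * τ) + 0 * α / (3 * τ)) z)^[k] (mo4 ℝ M N e)) =
        ∑ j ∈ Finset.range (k + 1), C k j * rowW l c M N (u i) (r i) j ((ix M N).symm e) := by
    intro i
    obtain ⟨C, hC1, hC2⟩ := rel l c ((1 : ℝ) * τ / (3 * α))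
      (-(2 * ω * 1) / (3 * α * τ) + 0 * α / (3 * τ)) (D1 α τ (s i)) (D2 α ω τ (s i) (t i))
      (XI ω τ (X' i) (Y' i)) (τ * Y' i) (h2 i) (hξ i) M N
    refine ⟨C, fun k => ?_, fun k e => ?_⟩
    · rw [hC1]
      congr 3
      unfold D1 D2
      field_simp
      ring
    · have h3 := hC2 k e.1 (N - (e.2 : ℕ)) (Nat.lt_succ_iff.1 e.1.2) (Nat.sub_le _ _)
      have h4 : N - (N - (e.2 : ℕ)) = e.2 := by
        have := e.2.2
        omega
      rw [h4] at h3
      unfold mo4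
      rw [h3]
      refine Finset.sum_congr rfl fun j _ => ?_
      rw [rowW, mo, Equiv.apply_symm_apply, hu, hr]
  choose C hC1 hC2 using hrel
  -- the integral matrix
  let Z : Matrix (Fin ((M + 1) * (N + 1))) (Fin ((M + 1) * (N + 1))) ℤ := fun a b =>
    eval ![s (sel a).1, t (sel a).1, X' (sel a).1, Y' (sel a).1]
      ((fun z => DI x y α β 1 0 z)^[(sel a).2] (mo4 ℤ M N (ix M N b)))
  let V : Fin ((M + 1) * (N + 1)) → Fin ((M + 1) * (N + 1)) → ℝ := fun a b =>
    ∑ j ∈ Finset.range ((sel a).2 + 1), C (sel a).1 (sel a).2 j *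
      rowW l c M N (u (sel a).1) (r (sel a).1) j b
  let T : Matrix (Fin ((M + 1) * (N + 1))) (Fin ((M + 1) * (N + 1))) ℝ :=
    (LD.rlM (frm α ω τ) M N).submatrix (ix M N) (ix M N)
  have hZ : Z.map (Int.cast : ℤ → ℝ) =
      Matrix.diagonal (fun a => (78732 * Δ ^ 3) ^ (sel a).2) * (Matrix.of V * T) := by
    ext a b
    rw [Matrix.diagonal_mul, Matrix.mul_apply, Matrix.map_apply]
    set i := (sel a).1 with hi
    set k := (sel a).2 with hk
    have h1 : ((eval ![s i, t i, X' i, Y' i]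
        ((fun z => DI x y α β 1 0 z)^[k] (mo4 ℤ M N (ix M N b))) : ℤ) : ℝ) =
        eval ![(s i : ℝ), t i, X' i, Y' i] ((fun z => DI (x : ℝ) y α β 1 0 z)^[k]
          (mo4 ℝ M N (ix M N b))) := by
      have h2 := map_DI_iter (Int.castRingHom ℝ) x y α β 1 0 k (mo4 ℤ M N (ix M N b))
      have h3 : map (Int.castRingHom ℝ) (mo4 ℤ M N (ix M N b)) = mo4 ℝ M N (ix M N b) := by
        unfold mo4
        simp only [map_mul, map_pow, map_X]
      rw [h3] at h2
      simp only [eq_intCast, Int.cast_one, Int.cast_zero] at h2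
      rw [← h2]
      refine cast_eval _ _ (fun j => ?_) _
      fin_cases j <;> rfl
    change ((eval ![s i, t i, X' i, Y' i]
        ((fun z => DI x y α β 1 0 z)^[k] (mo4 ℤ M N (ix M N b))) : ℤ) : ℝ) = _
    rw [h1, mo4_eq α ω τ hα0 hτ.ne', iter_sum, map_sum]
    have h5 : ∀ e : LD.E M N, eval ![(s i : ℝ), t i, X' i, Y' i]
        (MvPolynomial.C (LD.rlM (frm α ω τ) M N e (ix M N b)) *
          (fun z => DI (x : ℝ) y α β 1 0 z)^[k] (sub α ω τ (mo4 ℝ M N e))) =
        (78732 * Δ ^ 3) ^ k * (V a ((ix M N).symm e) * LD.rlM (frm α ω τ) M N e (ix M N b)) := by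
      intro e
      rw [conj_iter hα0 hτ.ne' q2 q1 q3 q4, map_mul, map_mul, eval_C, eval_C, eval_sub]
      have h6 := hC2 i k e
      have h7 : V a ((ix M N).symm e) = ∑ j ∈ Finset.range (k + 1), C i k j *
        rowW l c M N (u i) (r i) j ((ix M N).symm e) := rfl
      rw [h7, ← h6, aeval_eq_eval]
      change _ * (_ * eval ![D1 α τ (s i), D2 α ω τ (s i) (t i), XI ω τ (X' i) (Y' i), τ * Y' i] _) =
        _
      ring
    rw [Finset.sum_congr rfl fun e _ => h5 e, ← Finset.mul_sum]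
    congr 1
    rw [← Equiv.sum_comp (ix M N)]
    refine Finset.sum_congr rfl fun b' _ => ?_
    rw [Equiv.symm_apply_apply]
    rfl
  have hdT : T.det = 9 ^ ((N + 1) * (M * (M + 1) / 2)) := by
    rw [Matrix.det_submatrix_equiv_self, LD.rlM_det]
    constructor
    · unfold frm
      simp only
      field_simp
      norm_num
    · unfold frm
      simp only
      field_simp
  -- the replacement of the rows
  have hCne : ∀ i k, C i k k ≠ 0 := by
    intro i k
    rw [hC1]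
    have h8 : (t i : ℝ) ≠ 0 := by exact_mod_cast ht i
    have h9 := h2 i
    have h10 := hξ i
    refine mul_ne_zero (pow_ne_zero _ (mul_ne_zero (neg_ne_zero.2 (div_ne_zero h8 (by norm_num))) h9))
      (mul_ne_zero (pow_ne_zero _ h9) (pow_ne_zero _ h10))
  have hdV : (Matrix.of V).det = (∏ a, C (sel a).1 (sel a).2 (sel a).2) *
      (Matrix.of fun a => rowW l c M N (u (sel a).1) (r (sel a).1) (sel a).2).det := by
    have h11 := GR.det_replace (fun p : κ × ℕ => p.2)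
      (fun p => rowW l c M N (u p.1) (r p.1) p.2) hsp
      (fun a b => (C (sel a).1 (sel a).2 (sel a).2)⁻¹ * V a b) (fun a => ?_)
    · rw [← h11, ← Matrix.det_mul_column]
      congr 1
      ext a b
      rw [Matrix.of_apply, Matrix.of_apply, Matrix.of_apply, mul_inv_cancel_left₀ (hCne _ _)]
    · have h12 : (fun b => (C (sel a).1 (sel a).2 (sel a).2)⁻¹ * V a b) -
          rowW l c M N (u (sel a).1) (r (sel a).1) (sel a).2 =
          ∑ j ∈ Finset.range (sel a).2, ((C (sel a).1 (sel a).2 (sel a).2)⁻¹ *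
            C (sel a).1 (sel a).2 j) • rowW l c M N (u (sel a).1) (r (sel a).1) j := by
        funext b
        simp only [Pi.sub_apply, Finset.sum_apply, Pi.smul_apply, smul_eq_mul]
        have h13 : V a b = ∑ j ∈ Finset.range ((sel a).2 + 1), C (sel a).1 (sel a).2 j *
          rowW l c M N (u (sel a).1) (r (sel a).1) j b := rfl
        rw [h13, Finset.sum_range_succ, mul_add, inv_mul_cancel_left₀ (hCne _ _), add_sub_cancel_right,
          Finset.mul_sum]
        refine Finset.sum_congr rfl fun j _ => ?_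
        ring
      rw [h12]
      refine Submodule.sum_mem _ fun j hj => Submodule.smul_mem _ _ (Submodule.subset_span ?_)
      exact ⟨((sel a).1, j), Finset.mem_range.1 hj, rfl⟩
  have hdZ : ((Z.det : ℤ) : ℝ) = (∏ a, (78732 * Δ ^ 3) ^ (sel a).2) *
      ((∏ a, C (sel a).1 (sel a).2 (sel a).2) *
      (Matrix.of fun a => rowW l c M N (u (sel a).1) (r (sel a).1) (sel a).2).det *
      9 ^ ((N + 1) * (M * (M + 1) / 2))) := by
    rw [← eq_intCast (Int.castRingHom ℝ), RingHom.map_det]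
    change (Z.map (Int.cast : ℤ → ℝ)).det = _
    rw [hZ, Matrix.det_mul, Matrix.det_diagonal, Matrix.det_mul, hdV, hdT]
  have hZ1 : (1 : ℝ) ≤ |((Z.det : ℤ) : ℝ)| := by
    have h14 : Z.det ≠ 0 := by
      intro h0
      rw [h0, Int.cast_zero] at hdZ
      have h15 : (∏ a, (78732 * Δ ^ 3) ^ (sel a).2) ≠ 0 :=
        Finset.prod_ne_zero_iff.2 fun a _ => pow_ne_zero _ (mul_ne_zero (by norm_num)
          (pow_ne_zero _ hΔ))
      have h16 : (∏ a, C (sel a).1 (sel a).2 (sel a).2) ≠ 0 :=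
        Finset.prod_ne_zero_iff.2 fun a _ => hCne _ _
      exact (mul_ne_zero h15 (mul_ne_zero (mul_ne_zero h16 hdet) (by positivity))) hdZ.symm
    exact_mod_cast Int.one_le_abs h14
  refine hZ1.trans (le_of_eq ?_)
  rw [hdZ, abs_mul, abs_mul, abs_mul, Finset.abs_prod, Finset.abs_prod]
  have h17 : ∏ a, ((78732 * |Δ| ^ 3 * |t (sel a).1 / 9 * D2 α ω τ (s (sel a).1) (t (sel a).1)|) ^
        (sel a).2 * (|D2 α ω τ (s (sel a).1) (t (sel a).1)| ^ M *
          |XI ω τ (X' (sel a).1) (Y' (sel a).1)| ^ N)) =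
      (∏ a, |(78732 * Δ ^ 3) ^ (sel a).2|) * ∏ a, |C (sel a).1 (sel a).2 (sel a).2| := by
    rw [← Finset.prod_mul_distrib]
    refine Finset.prod_congr rfl fun a _ => ?_
    have h18 : |(78732 : ℝ)| = 78732 := abs_of_pos (by norm_num)
    rw [hC1]
    simp only [abs_mul, abs_pow, abs_neg, h18]
    ring
  rw [h17, abs_of_pos (by positivity : (0 : ℝ) < 9 ^ ((N + 1) * (M * (M + 1) / 2)))]
  ring

end Pool.Agent.Work.MP_f2148a_nt.M56.GL
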