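import Pool.Agent.Work.MP_f2148a_nt.M56.GL.Defs

set_option autoImplicit false
set_option linter.unusedSimpArgs false

/-!
# GL/Inv: the two invariants `Hess³`, `γ³ j` of the plane derivation (all proved)
-/

namespace Pool.Agent.Work.MP_f2148a_nt.M56.GL

open G4 Polynomial G1

section der

variable {R A : Type*} [CommRing R] [CommRing A] [Algebra R A] (D : Derivation R A A)

/-- derivative of `j` -/
theorem der_jf (l c u : A) (hl : D l = 0) (hc : D c = 0) :
    D (jf l c u) = (3 * (16 * l ^ 3 - c ^ 2) * u ^ 2 + 12 * l * c * u + 3 * l ^ 2) * D u := by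
  have h16 : D (16 : A) = 0 := D.map_natCast 16
  have h6 : D (6 : A) = 0 := D.map_natCast 6
  have h3 : D (3 : A) = 0 := D.map_natCast 3
  unfold jf
  simp only [map_sub, map_add, Derivation.leibniz, Derivation.leibniz_pow, hl, hc, h16, h6, h3,
    smul_eq_mul, smul_zero, mul_zero, add_zero, nsmul_eq_mul]
  push_cast
  ring

theorem der_Hf (l c u r q : A) (hl : D l = 0) (hc : D c = 0) (hu : D u = -jf l c u)
    (hr : D r = q * hf l c u r) (hq : 2 * q = 1) :
    D (Hf l c u r) = (bf l c u r -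
      ((16 * l ^ 3 - c ^ 2) * u ^ 2 + 4 * l * c * u + l ^ 2)) * Hf l c u r := by
  have h12 : D (12 : A) = 0 := D.map_natCast 12
  have h36 : D (36 : A) = 0 := D.map_natCast 36
  have h24 : D (24 : A) = 0 := D.map_natCast 24
  have h6 : D (6 : A) = 0 := D.map_natCast 6
  have h1 : D (Hf l c u r) =
      ((12 - 12 * l * r ^ 2) * (-12 * l * u - 12 * c * u * r - (36 * l ^ 2 * u + 12 * c) * r ^ 2)
        + (12 * u + 12 * r - 12 * l * u * r ^ 2) * (-12 * l - 12 * c * r - 36 * l ^ 2 * r ^ 2)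
        - 2 * (6 - 24 * l * u * r - 6 * c * u * r ^ 2) * (-24 * l * r - 6 * c * r ^ 2)) * D u +
      ((12 - 24 * l * u * r) * (-12 * l * u - 12 * c * u * r - (36 * l ^ 2 * u + 12 * c) * r ^ 2)
        + (12 * u + 12 * r - 12 * l * u * r ^ 2) * (-12 * c * u -
          2 * (36 * l ^ 2 * u + 12 * c) * r)
        - 2 * (6 - 24 * l * u * r - 6 * c * u * r ^ 2) * (-24 * l * u - 12 * c * u * r)) * D r := by
    unfold Hf
    simp only [map_sub, map_add, map_neg, Derivation.leibniz, Derivation.leibniz_pow, hl, hc, h12,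
      h36, h24, h6, smul_eq_mul, smul_zero, mul_zero, add_zero, nsmul_eq_mul]
    push_cast
    ring
  rw [h1, hu, hr]
  have h2 : (-jf l c u) * 2 * ((12 - 12 * l * r ^ 2) * (-12 * l * u - 12 * c * u * r - (36 * l ^ 2 * u + 12 * c) * r ^ 2)
        + (12 * u + 12 * r - 12 * l * u * r ^ 2) * (-12 * l - 12 * c * r - 36 * l ^ 2 * r ^ 2)
        - 2 * (6 - 24 * l * u * r - 6 * c * u * r ^ 2) * (-24 * l * r - 6 * c * r ^ 2)) +
      ((12 - 24 * l * u * r) * (-12 * l * u - 12 * c * u * r - (36 * l ^ 2 * u + 12 * c) * r ^ 2)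
        + (12 * u + 12 * r - 12 * l * u * r ^ 2) * (-12 * c * u -
          2 * (36 * l ^ 2 * u + 12 * c) * r)
        - 2 * (6 - 24 * l * u * r - 6 * c * u * r ^ 2) * (-24 * l * u - 12 * c * u * r)) *
        hf l c u r = 2 * ((bf l c u r -
      ((16 * l ^ 3 - c ^ 2) * u ^ 2 + 4 * l * c * u + l ^ 2)) * Hf l c u r) := by
    unfold jf hf bf Hf
    ring
  linear_combination q * h2 + (((12 - 12 * l * r ^ 2) * (-12 * l * u - 12 * c * u * r - (36 * l ^ 2 * u + 12 * c) * r ^ 2)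
        + (12 * u + 12 * r - 12 * l * u * r ^ 2) * (-12 * l - 12 * c * r - 36 * l ^ 2 * r ^ 2)
        - 2 * (6 - 24 * l * u * r - 6 * c * u * r ^ 2) * (-24 * l * r - 6 * c * r ^ 2)) * jf l c u +
        (bf l c u r -
      ((16 * l ^ 3 - c ^ 2) * u ^ 2 + 4 * l * c * u + l ^ 2)) * Hf l c u r) * hq

theorem der_ga (l c u r q : A) (hl : D l = 0) (hc : D c = 0) (hu : D u = -jf l c u)
    (hr : D r = q * hf l c u r) (hq : 2 * q = 1) :
    D (u * pa l c r + pb l c r) = bf l c u r * (u * pa l c r + pb l c r) := by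
  have h6 : D (6 : A) = 0 := D.map_natCast 6
  have h3 : D (3 : A) = 0 := D.map_natCast 3
  have h2 : D (2 : A) = 0 := D.map_natCast 2
  have h1 : D (u * pa l c r + pb l c r) = pa l c r * D u +
      (u * pa' l c r + pb' l c r) * D r := by
    unfold pa pb pa' pb'
    simp only [map_sub, map_add, map_neg, Derivation.leibniz, Derivation.leibniz_pow, hl, hc, h6,
      h3, h2, smul_eq_mul, smul_zero, mul_zero, zero_mul, add_zero, nsmul_eq_mul, map_zero,
      Derivation.map_one_eq_zero]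
    push_cast
    ring
  rw [h1, hu, hr]
  have h5 := flat_id l c u r
  linear_combination q * h5 + (jf l c u * pa l c r +
    (u * pa l c r + pb l c r) * bf l c u r) * hq

end der

section mult

variable (l c : ℝ)

theorem dD_const (P : ℝ[X]) (B : ℝ[X][X]) (a : ℝ) : dD P B (C (C a)) = 0 := by
  rw [dD_apply, dl_C, derivative_C, mul_zero, C_0]

theorem dD_u : dD (PP l c) (BB l c) (C X) = -jf (C (C l)) (C (C c)) (C X) := by
  rw [dD_apply, dl_C, derivative_X, mul_one, PP, map_neg, map_jf]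

theorem dD_r : dD (PP l c) (BB l c) X = C (C (1 / 2)) * hf (C (C l)) (C (C c)) (C X) X := by
  rw [dD_apply, dl, derivative_X, mul_one, BB]
  have h : dS (PP l c) X = 0 := by
    refine Polynomial.ext fun j => ?_
    rw [coeff_dS, coeff_X, coeff_zero]
    split_ifs <;> simp
  rw [h, zero_add]

theorem half : (2 : ℝ[X][X]) * C (C (1 / 2)) = 1 := by
  rw [← map_ofNat (C.comp C) 2, RingHom.comp_apply, ← map_mul, ← map_mul]
  norm_num

theorem dl_Ph1 : dl (PP l c) (BB l c) (Ph1 l c) = Lm l c * Ph1 l c := by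
  rw [← dD_apply, Ph1, Derivation.leibniz_pow, der_Hf (dD (PP l c) (BB l c)) _ _ _ _ _
    (dD_const _ _ l) (dD_const _ _ c) (dD_u l c) (dD_r l c) half, Lm]
  simp only [nsmul_eq_mul, smul_eq_mul]
  push_cast
  ring

theorem dl_Ph2 : dl (PP l c) (BB l c) (Ph2 l c) = Lm l c * Ph2 l c := by
  rw [← dD_apply, Ph2, Derivation.leibniz, Derivation.leibniz_pow,
    der_ga (dD (PP l c) (BB l c)) _ _ _ _ _
    (dD_const _ _ l) (dD_const _ _ c) (dD_u l c) (dD_r l c) half,
    der_jf (dD (PP l c) (BB l c)) _ _ _ (dD_const _ _ l) (dD_const _ _ c), dD_u, Lm]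
  simp only [nsmul_eq_mul, smul_eq_mul]
  push_cast
  ring

end mult

section deg

variable (l c : ℝ)

theorem PP_deg : (PP l c).natDegree ≤ 3 := by
  unfold PP jf
  rw [natDegree_neg]
  have h : (16 * C l ^ 3 - C c ^ 2 : ℝ[X]) = C (16 * l ^ 3 - c ^ 2) := by
    rw [map_sub, map_mul, map_pow, map_pow, map_ofNat]
  have h' : (6 * C l * C c : ℝ[X]) = C (6 * l * c) := by rw [map_mul, map_mul, map_ofNat]
  have h'' : (3 * C l ^ 2 : ℝ[X]) = C (3 * l ^ 2) := by rw [map_mul, map_pow, map_ofNat]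
  rw [h, h', h'']
  compute_degree

theorem BB_eq : BB l c = C (C (c / 2) + C (2 * l ^ 2) * X) +
    C (C (l ^ 2) - C (l * c) * X) * X +
    C (C (2 * l ^ 3 - c ^ 2 / 2) * X + C (l * c)) * X ^ 2 := by
  unfold BB hf
  have h := half
  have h4 : ∀ a : ℝ, (C (C a) : ℝ[X][X]) = (C.comp C : ℝ →+* ℝ[X][X]) a := fun _ => rfl
  have e1 : (C (C (c / 2)) : ℝ[X][X]) = C (C (1 / 2)) * C (C c) := by
    rw [h4, h4, h4, ← map_mul]
    congr 1
    ring
  have e2 : (C (C (2 * l ^ 2)) : ℝ[X][X]) = C (C (1 / 2)) * (4 * C (C l) ^ 2) := by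
    rw [h4, h4, h4, ← map_pow, ← map_ofNat (C.comp C : ℝ →+* ℝ[X][X]) 4, ← map_mul, ← map_mul]
    congr 1
    ring
  have e3 : (C (C (l ^ 2)) : ℝ[X][X]) = C (C (1 / 2)) * (2 * C (C l) ^ 2) := by
    rw [h4, h4, h4, ← map_pow, ← map_ofNat (C.comp C : ℝ →+* ℝ[X][X]) 2, ← map_mul, ← map_mul]
    congr 1
    ring
  have e4 : (C (C (l * c)) : ℝ[X][X]) = C (C (1 / 2)) * (2 * C (C l) * C (C c)) := by
    rw [h4, h4, h4, h4, ← map_ofNat (C.comp C : ℝ →+* ℝ[X][X]) 2, ← map_mul, ← map_mul, ← map_mul]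
    congr 1
    ring
  have e5 : (C (C (2 * l ^ 3 - c ^ 2 / 2)) : ℝ[X][X]) =
      C (C (1 / 2)) * (4 * C (C l) ^ 3 - C (C c) ^ 2) := by
    rw [h4, h4, h4, h4, ← map_ofNat (C.comp C : ℝ →+* ℝ[X][X]) 4, ← map_pow, ← map_pow, ← map_mul,
      ← map_sub, ← map_mul]
    congr 1
    ring
  simp only [map_add, map_sub, map_mul, map_neg] at e1 e2 e3 e4 e5 ⊢
  linear_combination -e1 - (C X : ℝ[X][X]) * e2 - (X : ℝ[X][X]) * e3 +
    (C X : ℝ[X][X]) * X * e4 - X ^ 2 * e4 - (C X : ℝ[X][X]) * X ^ 2 * e5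

theorem BB_deg : (BB l c).natDegree ≤ 2 := by
  rw [BB_eq]
  compute_degree

theorem BB_deg' (j : ℕ) : ((BB l c).coeff j).natDegree ≤ 3 := by
  rw [BB_eq]
  simp only [coeff_add, coeff_C_mul, coeff_X, coeff_X_pow, coeff_C]
  refine (natDegree_add_le _ _).trans (max_le ((natDegree_add_le _ _).trans (max_le ?_ ?_)) ?_)
  · split_ifs
    · compute_degree
      norm_num
    · simp
  · split_ifs
    · rw [mul_one]
      compute_degree
      norm_num
    · simp
  · split_ifs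
    · rw [mul_one]
      compute_degree
      norm_num
    · simp

theorem ev_C (u r : ℝ) (p : ℝ[X]) : ev u r (C p) = p.eval u := by
  unfold ev
  simp

theorem ev_X (u r : ℝ) : ev u r (X : ℝ[X][X]) = r := by
  unfold ev
  simp

/-- evaluation as a ring homomorphism -/
noncomputable def evR (u r : ℝ) : ℝ[X][X] →+* ℝ :=
  (Polynomial.evalRingHom r).comp (Polynomial.mapRingHom (Polynomial.evalRingHom u))

theorem evR_apply (u r : ℝ) (f : ℝ[X][X]) : evR u r f = ev u r f := rfl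

theorem ev_Ph1 (u r : ℝ) : ev u r (Ph1 l c) = Hf l c u r ^ 3 := by
  have h1 : ∀ a, evR u r (C (C a)) = a := fun a => by rw [evR_apply, ev_C, eval_C]
  have h2 : evR u r (C X) = u := by rw [evR_apply, ev_C, eval_X]
  have h3 : evR u r X = r := by rw [evR_apply, ev_X]
  rw [← evR_apply, Ph1, Hf]
  simp only [map_sub, map_add, map_neg, map_mul, map_pow, map_ofNat, h1, h2, h3]
  rfl

theorem ev_Ph2 (u r : ℝ) : ev u r (Ph2 l c) = (u * pa l c r + pb l c r) ^ 3 * jf l c u := by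
  have h1 : ∀ a, evR u r (C (C a)) = a := fun a => by rw [evR_apply, ev_C, eval_C]
  have h2 : evR u r (C X) = u := by rw [evR_apply, ev_C, eval_X]
  have h3 : evR u r X = r := by rw [evR_apply, ev_X]
  rw [← evR_apply, Ph2, map_mul, map_pow, map_add, map_mul, map_pa, map_pb, map_jf, h1, h1, h2, h3]

theorem eval_PP (u : ℝ) : (PP l c).eval u = -jf l c u := by
  unfold PP
  rw [← coe_evalRingHom, map_neg, map_jf]
  simp

end deg

end Pool.Agent.Work.MP_f2148a_nt.M56.GL
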