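import Pool.Agent.Work.MP_f2148a_nt.M56.GL.Inv

set_option autoImplicit false

/-!
# GL/Iter: the rows `W2^i` as iterates of `dl` (all proved)
-/

namespace Pool.Agent.Work.MP_f2148a_nt.M56.GL

open G4 G1

variable (l c : ℝ)

theorem io_zero : io (MvPolynomial.X 0) = Polynomial.C Polynomial.X := by
  rw [io, MvPolynomial.aeval_X]
  rfl

theorem io_one : io (MvPolynomial.X 1) = Polynomial.X := by
  rw [io, MvPolynomial.aeval_X]
  rfl

theorem io_C (a : ℝ) : io (MvPolynomial.C a) = Polynomial.C (Polynomial.C a) := by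
  rw [← MvPolynomial.algebraMap_eq, AlgHom.commutes]
  rfl

theorem dl_io (F : MvPolynomial (Fin 2) ℝ) : dl (PP l c) (BB l c) (io F) = io (W2 l c F) := by
  rw [← dD_apply]
  induction F using MvPolynomial.induction_on with
  | C a =>
    rw [MvPolynomial.derivation_C, map_zero, io_C, dD_const]
  | add p q hp hq => rw [map_add, map_add, map_add, map_add, hp, hq]
  | mul_X p i hp =>
    have hi : dD (PP l c) (BB l c) (io (MvPolynomial.X i)) = io (W2 l c (MvPolynomial.X i)) := by
      have hal : ∀ a : ℝ, io (algebraMap ℝ _ a) = Polynomial.C (Polynomial.C a) := io_C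
      fin_cases i
      · change dD (PP l c) (BB l c) (io (MvPolynomial.X 0)) = io (W2 l c (MvPolynomial.X 0))
        rw [io_zero, dD_u, W2_zero, map_neg]
        have h := map_jf (io : MvPolynomial (Fin 2) ℝ →+* Polynomial (Polynomial ℝ)) (algebraMap ℝ _ l)
          (algebraMap ℝ _ c) (MvPolynomial.X 0)
        simp only [RingHom.coe_coe, hal, io_zero] at h
        rw [h]
      · change dD (PP l c) (BB l c) (io (MvPolynomial.X 1)) = io (W2 l c (MvPolynomial.X 1))
        rw [io_one, dD_r, W2_one, map_mul, hal]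
        have h := map_hf (io : MvPolynomial (Fin 2) ℝ →+* Polynomial (Polynomial ℝ)) (algebraMap ℝ _ l)
          (algebraMap ℝ _ c) (MvPolynomial.X 0) (MvPolynomial.X 1)
        simp only [RingHom.coe_coe, hal, io_zero, io_one] at h
        rw [h]
    rw [map_mul, Derivation.leibniz, Derivation.leibniz, smul_eq_mul, smul_eq_mul, smul_eq_mul,
      smul_eq_mul, map_add, map_mul, map_mul, hp, hi]

theorem dl_iter (i : ℕ) (F : MvPolynomial (Fin 2) ℝ) :
    (dl (PP l c) (BB l c))^[i] (io F) = io ((fun x => W2 l c x)^[i] F) := by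
  induction i generalizing F with
  | zero => rfl
  | succ i ih => rw [Function.iterate_succ_apply, Function.iterate_succ_apply, dl_io, ih]

theorem ev_io (u r : ℝ) (F : MvPolynomial (Fin 2) ℝ) :
    ev u r (io F) = MvPolynomial.aeval ![u, r] F := by
  rw [← evR_apply]
  induction F using MvPolynomial.induction_on with
  | C a =>
    rw [io_C, evR_apply, ev_C, Polynomial.eval_C, MvPolynomial.aeval_C]
    rfl
  | add p q hp hq => rw [map_add, map_add, map_add, hp, hq]
  | mul_X p i hp =>
    rw [map_mul, map_mul, map_mul, hp, MvPolynomial.aeval_X]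
    congr 1
    fin_cases i
    · change evR u r (io (MvPolynomial.X 0)) = u
      rw [io_zero, evR_apply, ev_C, Polynomial.eval_X]
    · change evR u r (io (MvPolynomial.X 1)) = r
      rw [io_one, evR_apply, ev_X]

theorem io_mo (M N : ℕ) (a : Fin ((M + 1) * (N + 1))) : io (mo M N a) =
    Polynomial.monomial (N - ((ix M N a).2 : ℕ)) (Polynomial.X ^ ((ix M N a).1 : ℕ)) := by
  rw [mo, map_mul, map_pow, map_pow, io_zero, io_one, ← Polynomial.C_mul_X_pow_eq_monomial,
    map_pow]

/-- The form with the coefficients `x`. -/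
noncomputable def fo (M N : ℕ) (x : Fin ((M + 1) * (N + 1)) → ℝ) : MvPolynomial (Fin 2) ℝ :=
  ∑ a, x a • mo M N a

theorem row_dot (M N : ℕ) (x : Fin ((M + 1) * (N + 1)) → ℝ) (u r : ℝ) (i : ℕ) :
    (rowW l c M N u r i) ⬝ᵥ x = ev u r ((dl (PP l c) (BB l c))^[i] (io (fo M N x))) := by
  rw [dl_iter, ev_io, fo]
  have h : ∀ s : Finset (Fin ((M + 1) * (N + 1))), (fun x => W2 l c x)^[i] (∑ a ∈ s, x a • mo M N a) =
      ∑ a ∈ s, x a • (fun x => W2 l c x)^[i] (mo M N a) := by
    intro s
    induction i with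
    | zero => rfl
    | succ i ih =>
      rw [Function.iterate_succ_apply', ih, map_sum]
      refine Finset.sum_congr rfl fun a _ => ?_
      rw [Derivation.map_smul, Function.iterate_succ_apply']
  rw [h, map_sum, dotProduct]
  refine Finset.sum_congr rfl fun a _ => ?_
  rw [map_smul, rowW, smul_eq_mul, mul_comm]

theorem io_fo (M N : ℕ) (x : Fin ((M + 1) * (N + 1)) → ℝ) : io (fo M N x) =
    ∑ a, Polynomial.monomial (N - ((ix M N a).2 : ℕ))
      (Polynomial.monomial ((ix M N a).1 : ℕ) (x a)) := by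
  rw [fo, map_sum]
  refine Finset.sum_congr rfl fun a _ => ?_
  rw [map_smul, io_mo, Polynomial.smul_monomial]
  congr 1
  rw [← Polynomial.C_mul_X_pow_eq_monomial, Polynomial.smul_eq_C_mul]

theorem fo_deg (M N : ℕ) (x : Fin ((M + 1) * (N + 1)) → ℝ) : (io (fo M N x)).natDegree ≤ N := by
  rw [io_fo]
  refine Polynomial.natDegree_sum_le_of_forall_le _ _ fun a _ => ?_
  exact (Polynomial.natDegree_monomial_le _).trans (Nat.sub_le _ _)

theorem fo_deg' (M N : ℕ) (x : Fin ((M + 1) * (N + 1)) → ℝ) (j : ℕ) :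
    ((io (fo M N x)).coeff j).natDegree ≤ M := by
  rw [io_fo, Polynomial.finsetSum_coeff]
  refine Polynomial.natDegree_sum_le_of_forall_le _ _ fun a _ => ?_
  rw [Polynomial.coeff_monomial]
  split_ifs
  · exact (Polynomial.natDegree_monomial_le _).trans (Nat.lt_succ_iff.1 (ix M N a).1.2)
  · simp

theorem fo_ne (M N : ℕ) (x : Fin ((M + 1) * (N + 1)) → ℝ) (hx : x ≠ 0) : io (fo M N x) ≠ 0 := by
  intro h
  apply hx
  funext b
  have h1 : ((io (fo M N x)).coeff (N - ((ix M N b).2 : ℕ))).coeff ((ix M N b).1 : ℕ) = 0 := by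
    rw [h]
    simp
  rw [io_fo, Polynomial.finsetSum_coeff, Polynomial.finsetSum_coeff, Finset.sum_eq_single b] at h1
  · simpa using h1
  · intro a _ hab
    rw [Polynomial.coeff_monomial]
    split_ifs with h2
    · rw [Polynomial.coeff_monomial, if_neg]
      intro h3
      apply hab
      apply (ix M N).injective
      refine Prod.ext (Fin.ext h3) (Fin.ext ?_)
      have h4 := (ix M N a).2.2
      have h5 := (ix M N b).2.2
      omega
    · simp
  · intro hb
    exact absurd (Finset.mem_univ b) hb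

end Pool.Agent.Work.MP_f2148a_nt.M56.GL
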