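import Pool.Agent.Work.MP_f2148a_nt.M56.GL.Rows

set_option autoImplicit false

/-!
# GL/Large: the box theorem for `Q ≥ K^C₁` (all proved)
-/

namespace Pool.Agent.Work.MP_f2148a_nt.M56.GL

open G4 G3

/-- The box theorem for `Q ≥ K^C₁` (zero estimate). -/
theorem box_large (η' : ℝ) (hη' : 0 < η') :
    ∃ η : ℝ, 0 < η ∧ ∃ C K₀ C₁ : ℝ, ∀ K : ℝ, K₀ ≤ K →
    ∀ (x y α β : ℤ) (ω τ Δ l c ρ σ Q : ℝ),
      1 ≤ α → 0 < τ → τ ≤ 1 → Dep (Z0 x y α β) ω τ Δ l c →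
      |l| ≤ 1 → |c| ≤ 1 → 1 / 4 ≤ Δ → Δ ≤ K → 2 * |ω| / (3 * α * τ) ≤ K ^ (2 : ℝ) →
      K ^ (1 / 10 : ℝ) ≤ σ → σ ≤ K ^ (2 : ℝ) → K ^ C₁ ≤ Q →
      ρ ≤ σ ^ (-(9 / 8 + η')) →
      ∀ P : Finset (ℤ × ℤ × ℤ × ℤ),
        (∀ p ∈ P, InBox x y α β ω τ ρ σ Q η p) →
        (∀ p ∈ P, ∀ p' ∈ P, p ≠ p' → p.1 * p'.2.1 ≠ p'.1 * p.2.1) →
        (∀ p ∈ P, ∀ p' ∈ P, p ≠ p' →
          (Hq (q4 x y α β p.1 p.2.1) p.2.2.1 p.2.2.2) ^ 3 * J432 (q4 x y α β p'.1 p'.2.1)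
            ≠ (Hq (q4 x y α β p'.1 p'.2.1) p'.2.2.1 p'.2.2.2) ^ 3
              * J432 (q4 x y α β p.1 p.2.1)) →
        (P.card : ℝ) ≤ C * (1 + Real.log (1 + Real.log Q)) := by
  obtain ⟨η, hη, N, hN1, C, C₁, κ₀, hκ₀, hC₁, hC1, hnum⟩ := num η' hη'
  refine ⟨η, hη, C + 1, Real.exp (κ₀ + 40), C₁, ?_⟩
  intro K hK x y α β ω τ Δ l c ρ σ Q hα hτ hτ1 hd hl hc hΔ hΔK hωK hσK hσK2 hQK hρσ P hP hst hinv
  classical
  obtain ⟨κ, hκ⟩ : ∃ κ : ℝ, κ = Real.log K := ⟨_, rfl⟩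
  have hK0 : 0 < K := lt_of_lt_of_le (Real.exp_pos _) hK
  have hκ1 : κ₀ + 40 ≤ κ := by
    rw [hκ, ← Real.log_exp (κ₀ + 40)]
    exact Real.log_le_log (Real.exp_pos _) hK
  have hKe : K = Real.exp κ := by rw [hκ, Real.exp_log hK0]
  have hK1 : 1 ≤ K := by
    rw [hKe]
    exact Real.one_le_exp (by linarith)
  have hrp : ∀ a : ℝ, K ^ a = Real.exp (a * κ) := by
    intro a
    rw [hKe, ← Real.exp_mul, mul_comm]
  have hσ0 : 0 < σ := lt_of_lt_of_le (Real.rpow_pos_of_pos hK0 _) hσK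
  have hQ0 : 0 < Q := lt_of_lt_of_le (Real.rpow_pos_of_pos hK0 _) hQK
  obtain ⟨Λ, hΛ⟩ : ∃ Λ : ℝ, Λ = Real.log σ := ⟨_, rfl⟩
  obtain ⟨L, hL⟩ : ∃ L : ℝ, L = Real.log Q := ⟨_, rfl⟩
  have hσe : σ = Real.exp Λ := by rw [hΛ, Real.exp_log hσ0]
  have hQe : Q = Real.exp L := by rw [hL, Real.exp_log hQ0]
  have hΛ1 : κ / 10 ≤ Λ := by
    rw [hrp, hσe, Real.exp_le_exp] at hσK
    linarith
  have hΛ2 : Λ ≤ 2 * κ := by
    rw [hrp, hσe, Real.exp_le_exp] at hσK2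
    linarith
  have hLκ : C₁ * κ ≤ L := by
    rw [hrp, hQe, Real.exp_le_exp] at hQK
    linarith
  have hL10 : 10 * κ ≤ L := le_trans (mul_le_mul_of_nonneg_right hC₁ (by linarith)) hLκ
  obtain ⟨A, hA⟩ : ∃ A : ℝ, A = (9 / 8 + η') * Λ := ⟨_, rfl⟩
  have hA4 : 4 ≤ A := by
    rw [hA]
    nlinarith
  obtain ⟨ρ₀, hρ₀⟩ : ∃ ρ₀ : ℝ, ρ₀ = Real.exp (-A) := ⟨_, rfl⟩
  have hρρ : ρ ≤ ρ₀ := by
    refine hρσ.trans (le_of_eq ?_)
    rw [hσe, ← Real.exp_mul, hρ₀, hA]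
    congr 1
    ring
  have hρ₀1 : 0 < ρ₀ := by rw [hρ₀]; exact Real.exp_pos _
  have hρ₀2 : ρ₀ ≤ 1 / 20 := by
    rw [hρ₀, Real.exp_neg, inv_eq_one_div]
    refine one_div_le_one_div_of_le (by norm_num) ?_
    have h1 : Real.exp 4 ≤ Real.exp A := Real.exp_le_exp.2 hA4
    have h2 : (2.7 : ℝ) ^ 4 ≤ Real.exp 4 := by
      have h3 : Real.exp 4 = Real.exp 1 ^ 4 := by
        rw [← Real.exp_nat_mul]
        norm_num
      rw [h3]
      exact pow_le_pow_left₀ (by norm_num) (by linarith [Real.exp_one_gt_d9]) 4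
    have h4 : (20 : ℝ) ≤ 2.7 ^ 4 := by norm_num
    linarith
  obtain ⟨g, hg⟩ : ∃ g : ℝ, g = Real.exp (-(4 * L - 1)) := ⟨_, rfl⟩
  have hg0 : 0 < g := by rw [hg]; exact Real.exp_pos _
  have hL400 : 400 ≤ L := by linarith
  have hg1 : g ≤ 1 / 5 := by
    rw [hg, Real.exp_neg, inv_eq_one_div]
    refine one_div_le_one_div_of_le (by norm_num) ?_
    have := Real.add_one_le_exp (4 * L - 1)
    linarith
  -- the points with `t ≠ 0`
  let P' := P.filter fun p => p.2.1 ≠ 0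
  have hcard : P.card ≤ P'.card + 1 := by
    have h1 : P.card = P'.card + (P.filter fun p => ¬ (p.2.1 ≠ 0)).card :=
      (Finset.card_filter_add_card_filter_not _).symm
    have h2 : (P.filter fun p => ¬ (p.2.1 ≠ 0)).card ≤ 1 := by
      rw [Finset.card_le_one]
      intro a ha b hb
      rw [Finset.mem_filter, not_not] at ha hb
      by_contra hab
      apply hst a ha.1 b hb.1 hab
      rw [ha.2, hb.2, mul_zero, mul_zero]
    omega
  have hlog0 : 0 ≤ Real.log (1 + L) := Real.log_nonneg (by linarith)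
  rw [← hL]
  by_contra hcon
  rw [not_le] at hcon
  have hJ : C * (1 + Real.log (1 + L)) ≤ P'.card := by
    have h1 : (P.card : ℝ) ≤ P'.card + 1 := by exact_mod_cast hcard
    nlinarith
  obtain ⟨hNJ, hfin⟩ := hnum κ Λ L (by linarith) hΛ1 hΛ2 hLκ P'.card hJ
  obtain ⟨M, hM⟩ : ∃ M : ℕ, M = ⌊N * L / Λ⌋₊ := ⟨_, rfl⟩
  obtain ⟨μ, hμ⟩ : ∃ μ : ℕ, μ = N + (2 * (N + 1) * M + 3 * N * (N + 1)) / (2 * (P'.card - N)) :=
    ⟨_, rfl⟩
  have hneg := hfin M μ hM hμ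
  obtain ⟨D, hD⟩ : ∃ D : ℕ, D = (M + 1) * (N + 1) := ⟨_, rfl⟩
  have hDr : (D : ℝ) = ((M : ℝ) + 1) * (N + 1) := by rw [hD]; push_cast; ring
  have hD1 : (1 : ℝ) ≤ D := by
    rw [hDr]
    have h1 : (0 : ℝ) ≤ M := Nat.cast_nonneg _
    have h2 : (0 : ℝ) ≤ N := Nat.cast_nonneg _
    nlinarith
  obtain ⟨T, hT⟩ : ∃ T : ℝ, T = 3 * N * L := ⟨_, rfl⟩
  have hT0 : 0 ≤ T := by rw [hT]; positivity
  obtain ⟨V, hV⟩ : ∃ V : ℝ, V = T ^ 3 / (6 * A * (4 * L - 1)) + T ^ 2 / (2 * A) +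
    T ^ 2 / (2 * (4 * L - 1)) + T := ⟨_, rfl⟩
  have hrows := rows (κ := {p // p ∈ P'}) (x := x) (y := y) (α := α) (β := β) (ω := ω) (τ := τ)
    (Δ := Δ) (l := l) (c := c) (ρ := ρ₀) (g := g) (σ := σ) (Q' := Real.exp ((1 + η) * L)) (K := K)
    hα hτ hτ1 hd hl hc hΔ hΔK hK1 (by
      have : K ^ (2 : ℝ) = K ^ 2 := by norm_cast
      rw [← this]
      exact hωK) (by
      rw [hσe]
      exact Real.one_le_exp (by linarith)) hρ₀1 hρ₀2 hg0.le hg1 (Real.exp_pos _).le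
    (fun p => p.1.1) (fun p => p.1.2.1) (fun p => p.1.2.2.1) (fun p => p.1.2.2.2)
    (fun p => (Finset.mem_filter.1 p.2).2)
    (fun p => (hP p.1 (Finset.mem_filter.1 p.2).1).1)
    (fun p => (hP p.1 (Finset.mem_filter.1 p.2).1).2.1)
    (fun p => ((hP p.1 (Finset.mem_filter.1 p.2).1).2.2.1).trans
      (mul_le_mul_of_nonneg_right hρρ (abs_nonneg _)))
    (fun p => by
      have h1 := (hP p.1 (Finset.mem_filter.1 p.2).1).2.2.2.1
      change Q ≤ |XI ω τ (p.1.2.2.1 : ℝ) (p.1.2.2.2 : ℝ)| at h1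
      have h2 : Q ^ 4 ≤ XI ω τ (p.1.2.2.1 : ℝ) (p.1.2.2.2 : ℝ) ^ 4 := by
        have h3 := pow_le_pow_left₀ hQ0.le h1 4
        rwa [← abs_pow, abs_of_nonneg (by positivity)] at h3
      have h4 : g * Q ^ 4 = Real.exp 1 := by
        rw [hg, hQe, ← Real.exp_nat_mul, ← Real.exp_add]
        congr 1
        push_cast
        ring
      have h5 : Real.exp 1 ≤ g * XI ω τ (p.1.2.2.1 : ℝ) (p.1.2.2.2 : ℝ) ^ 4 := by
        rw [← h4]
        exact mul_le_mul_of_nonneg_left h2 hg0.le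
      linarith [Real.exp_one_gt_d9])
    (fun p => by
      have h1 := (hP p.1 (Finset.mem_filter.1 p.2).1).2.2.2.2.1
      change |XI ω τ (p.1.2.2.1 : ℝ) (p.1.2.2.2 : ℝ)| ≤ Q ^ (1 + η) at h1
      refine h1.trans (le_of_eq ?_)
      rw [hQe, ← Real.exp_mul]
      congr 1
      ring)
    (fun p => (hP p.1 (Finset.mem_filter.1 p.2).1).2.2.2.2.2.1)
    (fun p => (hP p.1 (Finset.mem_filter.1 p.2).1).2.2.2.2.2.2)
    (fun p p' hne => hst p.1 (Finset.mem_filter.1 p.2).1 p'.1 (Finset.mem_filter.1 p'.2).1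
      (fun h => hne (Subtype.ext h)))
    (fun p p' hne => hinv p.1 (Finset.mem_filter.1 p.2).1 p'.1 (Finset.mem_filter.1 p'.2).1
      (fun h => hne (Subtype.ext h)))
    M N μ (by
      rw [Fintype.card_coe]
      have h1 : μ + 1 - N = (2 * (N + 1) * M + 3 * N * (N + 1)) / (2 * (P'.card - N)) + 1 := by
        rw [hμ]
        generalize (2 * (N + 1) * M + 3 * N * (N + 1)) / (2 * (P'.card - N)) = z
        omega
      rw [h1]
      have h2 : 0 < 2 * (P'.card - N) := by omega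
      have h3 := Nat.lt_mul_div_succ (2 * (N + 1) * M + 3 * N * (N + 1)) h2
      rw [← mul_assoc]
      exact h3)
    (Real.exp (-(T * D - V))) (Real.exp_pos _).le (fun f hf => by
      have h1 := sum_weights A (4 * L - 1) T (by linarith) (by linarith) hT0 f hf
      have h2 : ∏ a, (g ^ (f a).1 * ρ₀ ^ (f a).2) =
          Real.exp (-∑ a, ((4 * L - 1) * (f a).1 + A * (f a).2)) := by
        rw [← Finset.sum_neg_distrib, Real.exp_sum]
        refine Finset.prod_congr rfl fun a _ => ?_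
        rw [hg, hρ₀, ← Real.exp_nat_mul, ← Real.exp_nat_mul, ← Real.exp_add]
        congr 1
        ring
      rw [h2, Real.exp_le_exp, neg_le_neg_iff, hV]
      have h3 : (((M + 1) * (N + 1) : ℕ) : ℝ) = D := by rw [hD]
      rw [h3] at h1
      linarith)
  -- everything is an exponential
  obtain ⟨E, hE⟩ : ∃ E : ℕ, E = 10 * M + 2 * N + 11 * μ + 1 := ⟨_, rfl⟩
  rw [← hE, ← hD] at hrows
  have hE1 : (1 : ℝ) ≤ E := by
    have : 1 ≤ E := by omega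
    exact_mod_cast this
  have hEr : (E : ℝ) = 10 * M + 2 * N + 11 * μ + 1 := by rw [hE]; push_cast; ring
  obtain ⟨H, hH⟩ : ∃ H : ℝ, H = Real.log (157464 * 918) + 9 * κ + (9 / 8 + η') * Λ +
    Real.log (10 * M + 2 * N + 11 * μ + 1) := ⟨_, rfl⟩
  have f1 : (9 : ℝ) ^ ((N + 1) * (M * (M + 1) / 2)) = Real.exp (D * (M * (Real.log 9 / 2))) := by
    have h1 : (9 : ℝ) ^ ((N + 1) * (M * (M + 1) / 2)) =
        Real.exp ((((N + 1) * (M * (M + 1) / 2) : ℕ) : ℝ) * Real.log 9) := by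
      rw [Real.exp_nat_mul, Real.exp_log (by norm_num)]
    rw [h1]
    congr 1
    have h2 : (((M * (M + 1) / 2 : ℕ)) : ℝ) = (M : ℝ) * (M + 1) / 2 := by
      rw [Nat.cast_div (Nat.even_mul_succ_self M).two_dvd (by norm_num)]
      push_cast
      ring
    rw [Nat.cast_mul, h2, hDr]
    push_cast
    ring
  have f2 : 157464 * K ^ 5 * σ ^ 2 * (918 / ρ₀) * (E : ℝ) ≤ Real.exp H := by
    have h1 : 157464 * K ^ 5 * σ ^ 2 * (918 / ρ₀) * (E : ℝ) =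
        (157464 * 918) * (Real.exp (5 * κ) * Real.exp (2 * Λ)) * Real.exp A * E := by
      rw [hρ₀, Real.exp_neg, hKe, hσe, ← Real.exp_nat_mul, ← Real.exp_nat_mul]
      push_cast
      rw [div_inv_eq_mul]
      ring
    have h2 : Real.exp H = (157464 * 918) * (Real.exp (9 * κ)) * Real.exp A * E := by
      rw [hH, Real.exp_add, Real.exp_add, Real.exp_add, Real.exp_log (by norm_num), ← hEr,
        Real.exp_log (by linarith), hA]
    rw [h1, h2, ← Real.exp_add]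
    have h3 : Real.exp (5 * κ + 2 * Λ) ≤ Real.exp (9 * κ) := Real.exp_le_exp.2 (by linarith)
    have h4 := Real.exp_pos A
    gcongr
  have f3 : (157464 * K ^ 5 * σ ^ 2 * (918 / ρ₀) * (E : ℝ)) ^ μ ≤ Real.exp (μ * H) := by
    rw [Real.exp_nat_mul]
    exact pow_le_pow_left₀ (by positivity) f2 μ
  have f4 : σ ^ M * Real.exp ((1 + η) * L) ^ N = Real.exp (M * Λ + N * ((1 + η) * L)) := by
    rw [hσe, ← Real.exp_nat_mul, ← Real.exp_nat_mul, ← Real.exp_add]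
  have f5 : ((157464 * K ^ 5 * σ ^ 2 * (918 / ρ₀) * (E : ℝ)) ^ μ *
      (σ ^ M * Real.exp ((1 + η) * L) ^ N)) ^ D ≤
      Real.exp (D * (μ * H + (M * Λ + N * ((1 + η) * L)))) := by
    rw [f4, Real.exp_nat_mul _ D, Real.exp_add (μ * H)]
    exact pow_le_pow_left₀ (by positivity)
      (mul_le_mul_of_nonneg_right f3 (Real.exp_pos _).le) D
  have f6 : ((((4 * M + N + 1) ^ 2 : ℕ) : ℝ)) ^ D =
      Real.exp (D * (2 * Real.log (4 * M + N + 1))) := by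
    rw [Real.exp_nat_mul, mul_comm (2 : ℝ), Real.exp_mul, Real.exp_log (by positivity)]
    push_cast
    norm_cast
  have f7 : ((D.factorial : ℕ) : ℝ) ≤ Real.exp (D * Real.log ((M + 1) * (N + 1))) := by
    rw [Real.exp_nat_mul, Real.exp_log (by positivity), ← hDr]
    exact_mod_cast Nat.factorial_le_pow D
  have f8 : ((24 : ℝ) ^ M) ^ D = Real.exp (D * (M * Real.log 24)) := by
    rw [Real.exp_nat_mul, Real.exp_nat_mul, Real.exp_log (by norm_num)]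
  have hall : (1 : ℝ) ≤ Real.exp (D * (M * (Real.log 9 / 2))) *
      Real.exp (D * (μ * H + (M * Λ + N * ((1 + η) * L)))) *
      (Real.exp (D * (2 * Real.log (4 * M + N + 1))) *
        Real.exp (D * Real.log ((M + 1) * (N + 1))) * Real.exp (D * (M * Real.log 24)) *
        Real.exp (-(T * D - V))) := by
    refine hrows.trans ?_
    rw [f1, f6, f8]
    refine mul_le_mul (mul_le_mul_of_nonneg_left f5 (Real.exp_pos _).le) ?_ (by positivity)
      (by positivity)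
    refine mul_le_mul_of_nonneg_right (mul_le_mul_of_nonneg_right
      (mul_le_mul_of_nonneg_left f7 (Real.exp_pos _).le) (Real.exp_pos _).le) (Real.exp_pos _).le
  rw [← Real.exp_add, ← Real.exp_add, ← Real.exp_add, ← Real.exp_add, ← Real.exp_add] at hall
  have hall' := Real.log_nonneg hall
  rw [Real.log_exp] at hall'
  rw [← hH, ← hA, ← hT, ← hV] at hneg
  have hfinal : D * ((M : ℝ) * (Real.log 9 / 2 + Real.log 24) + (M * Λ + N * ((1 + η) * L)) +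
      (2 * Real.log (4 * M + N + 1) + Real.log ((M + 1) * (N + 1))) + μ * H +
      (V / ((M + 1) * (N + 1)) - T)) < 0 := mul_neg_of_pos_of_neg (by linarith) hneg
  have hVD : D * (V / ((M + 1) * (N + 1))) = V := by
    rw [← hDr]
    field_simp
  linarith

end Pool.Agent.Work.MP_f2148a_nt.M56.GL
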