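import Mathlib

set_option autoImplicit false

/-!
# GL/Num: the numerical inequality (all proved, Mathlib only)
-/

namespace Pool.Agent.Work.MP_f2148a_nt.M56.GL

theorem log_le_sqrt {y : ℝ} (hy : 0 < y) : Real.log y ≤ 2 * √y := by
  have h1 : Real.log y = 2 * Real.log (√y) := by
    rw [Real.log_sqrt hy.le]
    ring
  have h2 := Real.log_le_sub_one_of_pos (Real.sqrt_pos.2 hy)
  rw [h1]
  linarith

/-- `c log y ≤ e z` if `y ≤ a z` and `z` is large -/
theorem log_small {c a e y z : ℝ} (hc : 0 < c) (he : 0 < e) (hy : 0 < y) (ha : 0 < a) (h : y ≤ a * z)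
    (hz : 4 * c ^ 2 * a ≤ e ^ 2 * z) : c * Real.log y ≤ e * z := by
  have hz0 : 0 < z := by
    by_contra hcon
    rw [not_lt] at hcon
    nlinarith
  have h1 := log_le_sqrt hy
  have h2 : √y ≤ √(a * z) := Real.sqrt_le_sqrt h
  have h3 : c * (2 * √(a * z)) ≤ e * z := by
    have h4 : c * (2 * √(a * z)) = √(4 * c ^ 2 * a * z) := by
      have h5 : √(4 * c ^ 2 * a * z) = √((2 * c) ^ 2) * √(a * z) := by
        rw [← Real.sqrt_mul (by positivity)]
        congr 1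
        ring
      rw [h5, Real.sqrt_sq (by positivity)]
      ring
    rw [h4]
    refine Real.sqrt_le_iff.2 ⟨by positivity, ?_⟩
    nlinarith
  calc c * Real.log y ≤ c * (2 * √(a * z)) := by
        refine mul_le_mul_of_nonneg_left (h1.trans ?_) hc.le
        linarith
    _ ≤ _ := h3

theorem weights_part {n m δ Λ L : ℝ} (hn : 1 ≤ n) (hm : n * L ≤ (m + 1) * Λ) (hδ : 0 < δ)
    (hΛ : 0 < Λ) (hL : 1 ≤ L) (hm0 : 0 ≤ m) :
    ((3 * n * L) ^ 3 / (6 * ((9 / 8) * (1 + δ) * Λ) * (4 * L - 1)) +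
      (3 * n * L) ^ 2 / (2 * ((9 / 8) * (1 + δ) * Λ)) + (3 * n * L) ^ 2 / (2 * (4 * L - 1)) +
      3 * n * L) / ((m + 1) * (n + 1)) ≤ n * L / (1 + δ) + n + 4 * L + 5 * Λ := by
  have hD : n ^ 2 * L ≤ ((m + 1) * (n + 1)) * Λ := by nlinarith
  have hD0 : 0 < (m + 1) * (n + 1) := by positivity
  have hb : 0 < 4 * L - 1 := by linarith
  set D := (m + 1) * (n + 1) with hDdef
  have hD' : n ^ 2 * L / Λ ≤ D := by
    rw [div_le_iff₀ hΛ]
    exact hD
  rw [div_le_iff₀ hD0]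
  -- first term
  have e1 : (3 * n * L) ^ 3 / (6 * ((9 / 8) * (1 + δ) * Λ) * (4 * L - 1)) ≤
      (n * L / (1 + δ) + n) * D := by
    have h1 : (3 * n * L) ^ 3 / (6 * ((9 / 8) * (1 + δ) * Λ) * (4 * L - 1)) =
        (n * L / (1 + δ) * (4 * L / (4 * L - 1))) * (n ^ 2 * L / Λ) := by
      field_simp
      ring
    rw [h1]
    refine mul_le_mul ?_ hD' (by positivity) (by positivity)
    have h2 : 4 * L / (4 * L - 1) ≤ 1 + 1 / L := by
      rw [div_le_iff₀ hb]
      have : (1 + 1 / L) * (4 * L - 1) = 4 * L + (3 - 1 / L) := by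
        field_simp
        ring
      rw [this]
      have h3 : 1 / L ≤ 1 := by
        rw [div_le_one (by linarith)]
        exact hL
      linarith
    calc n * L / (1 + δ) * (4 * L / (4 * L - 1)) ≤ n * L / (1 + δ) * (1 + 1 / L) :=
          mul_le_mul_of_nonneg_left h2 (by positivity)
      _ = n * L / (1 + δ) + n / (1 + δ) := by
          field_simp
      _ ≤ n * L / (1 + δ) + n := by
          have h4 : n / (1 + δ) ≤ n := div_le_self (by linarith) (by linarith)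
          linarith
  have e2 : (3 * n * L) ^ 2 / (2 * ((9 / 8) * (1 + δ) * Λ)) ≤ 4 * L * D := by
    have h1 : (3 * n * L) ^ 2 / (2 * ((9 / 8) * (1 + δ) * Λ)) =
        (4 * L / (1 + δ)) * (n ^ 2 * L / Λ) := by
      field_simp
      ring
    rw [h1]
    refine mul_le_mul ?_ hD' (by positivity) (by positivity)
    exact div_le_self (by linarith) (by linarith)
  have e3 : (3 * n * L) ^ 2 / (2 * (4 * L - 1)) ≤ 2 * Λ * D := by
    rw [div_le_iff₀ (by linarith)]
    have h1 : (3 * n * L) ^ 2 = 9 * L * (n ^ 2 * L) := by ring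
    rw [h1]
    have h2 : 2 * Λ * D * (2 * (4 * L - 1)) = (D * Λ) * (4 * (4 * L - 1)) := by ring
    rw [h2]
    calc 9 * L * (n ^ 2 * L) ≤ 9 * L * (D * Λ) := mul_le_mul_of_nonneg_left hD (by linarith)
      _ = (D * Λ) * (9 * L) := by ring
      _ ≤ (D * Λ) * (4 * (4 * L - 1)) :=
          mul_le_mul_of_nonneg_left (by linarith) (by positivity)
  have e4 : 3 * n * L ≤ 3 * Λ * D := by
    have h1 : n * L ≤ n ^ 2 * L := by
      refine mul_le_mul_of_nonneg_right ?_ (by linarith)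
      nlinarith
    nlinarith
  linarith [e1, e2, e3, e4]

/-- The numerical inequality. -/
theorem num (η' : ℝ) (hη' : 0 < η') : ∃ η : ℝ, 0 < η ∧ ∃ N : ℕ, 1 ≤ N ∧ ∃ C C₁ κ₀ : ℝ,
    0 < κ₀ ∧ 10 ≤ C₁ ∧ 1 ≤ C ∧ ∀ κ Λ L : ℝ, κ₀ ≤ κ → κ / 10 ≤ Λ → Λ ≤ 2 * κ → C₁ * κ ≤ L →
    ∀ J : ℕ, C * (1 + Real.log (1 + L)) ≤ J → N < J ∧ ∀ M μ : ℕ, M = ⌊N * L / Λ⌋₊ →
    μ = N + (2 * (N + 1) * M + 3 * N * (N + 1)) / (2 * (J - N)) →
    (M : ℝ) * (Real.log 9 / 2 + Real.log 24) + (M * Λ + N * ((1 + η) * L)) +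
      (2 * Real.log (4 * M + N + 1) + Real.log ((M + 1) * (N + 1))) +
      μ * (Real.log (157464 * 918) + 9 * κ + (9 / 8 + η') * Λ +
        Real.log (10 * M + 2 * N + 11 * μ + 1)) +
      (((3 * N * L) ^ 3 / (6 * ((9 / 8 + η') * Λ) * (4 * L - 1)) +
        (3 * N * L) ^ 2 / (2 * ((9 / 8 + η') * Λ)) + (3 * N * L) ^ 2 / (2 * (4 * L - 1)) +
        3 * N * L) / ((M + 1) * (N + 1)) - 3 * N * L) < 0 := by
  obtain ⟨δ, hδ⟩ : ∃ δ : ℝ, δ = 8 * η' / 9 := ⟨_, rfl⟩
  have hδ0 : 0 < δ := by rw [hδ]; positivity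
  obtain ⟨ε, hε⟩ : ∃ ε : ℝ, ε = δ / (1 + δ) := ⟨_, rfl⟩
  have hε0 : 0 < ε := by rw [hε]; positivity
  have hε1 : ε < 1 := by
    rw [hε, div_lt_one (by positivity)]
    linarith
  have hε2 : 1 / (1 + δ) = 1 - ε := by
    rw [hε]
    field_simp
    ring
  obtain ⟨N, hN⟩ : ∃ N : ℕ, N = ⌈40 / ε⌉₊ + 1 := ⟨_, rfl⟩
  obtain ⟨n, hn⟩ : ∃ n : ℝ, n = (N : ℝ) := ⟨_, rfl⟩
  have hN1 : 1 ≤ N := by omega
  have hn1 : 1 ≤ n := by
    rw [hn]
    exact_mod_cast hN1
  have hn40 : 40 ≤ n * ε := by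
    have h1 : 40 / ε ≤ n := by
      rw [hn, hN]
      push_cast
      linarith [Nat.le_ceil (40 / ε)]
    rwa [div_le_iff₀ hε0] at h1
  obtain ⟨CN, hCN⟩ : ∃ CN : ℝ, CN = 100 * (n + 1) ^ 2 := ⟨_, rfl⟩
  have hCN1 : 100 ≤ CN := by
    rw [hCN]
    nlinarith
  have hlCN : 0 < Real.log CN := Real.log_pos (by linarith)
  obtain ⟨c₀, hc₀⟩ : ∃ c₀ : ℝ, c₀ = Real.log (157464 * 918) := ⟨_, rfl⟩
  have hc₀0 : 0 < c₀ := by
    rw [hc₀]
    exact Real.log_pos (by norm_num)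
  obtain ⟨c₁, hc₁⟩ : ∃ c₁ : ℝ, c₁ = Real.log 9 / 2 + Real.log 24 := ⟨_, rfl⟩
  have hc₁0 : 0 < c₁ := by
    rw [hc₁]
    have h1 : 0 < Real.log 9 := Real.log_pos (by norm_num)
    have h2 : 0 < Real.log 24 := Real.log_pos (by norm_num)
    linarith
  obtain ⟨C', hC'⟩ : ∃ C' : ℝ, C' = c₀ + 9 + 2 * (9 / 8 + η') := ⟨_, rfl⟩
  have hC'0 : 0 < C' := by rw [hC']; positivity
  obtain ⟨C₁, hC₁⟩ : ∃ C₁ : ℝ, C₁ = 10 + 40 * C' / ε := ⟨_, rfl⟩
  have hC₁a : 10 ≤ C₁ := by
    rw [hC₁]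
    have : 0 < 40 * C' / ε := by positivity
    linarith
  obtain ⟨κ₀, hκ₀⟩ : ∃ κ₀ : ℝ, κ₀ = 10 + 100 * c₁ / ε + 40 / ε + 38400 / ε ^ 2 +
    40 * Real.log CN / ε + 12800 * n / ε ^ 2 := ⟨_, rfl⟩
  have p1 : 0 < 100 * c₁ / ε := by positivity
  have p2 : 0 < 40 / ε := by positivity
  have p3 : 0 < 38400 / ε ^ 2 := by positivity
  have p4 : 0 < 40 * Real.log CN / ε := by positivity
  have p5 : 0 < 12800 * n / ε ^ 2 := by positivity
  have hl2n : 0 < Real.log (2 * n) := Real.log_pos (by linarith)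
  obtain ⟨G₀, hG₀⟩ : ∃ G₀ : ℝ, G₀ = 10 * C' + Real.log CN + Real.log (2 * n) := ⟨_, rfl⟩
  have hG₀0 : 0 < G₀ := by rw [hG₀]; positivity
  obtain ⟨C, hC⟩ : ∃ C : ℝ, C = n + 20 * CN / ε * (G₀ + 1) := ⟨_, rfl⟩
  have hq : 0 < 20 * CN / ε := by positivity
  have hC1 : 1 ≤ C := by
    rw [hC]
    have : 0 < 20 * CN / ε * (G₀ + 1) := by positivity
    linarith
  refine ⟨ε / 10, by positivity, N, hN1, C, C₁, κ₀, by linarith, hC₁a, hC1, ?_⟩
  intro κ Λ L hκ hΛ1 hΛ2 hL J hJ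
  have hκ5 : 10 ≤ κ := by linarith
  have hΛpos : 1 ≤ Λ := by linarith
  have hκL : 10 * κ ≤ L := le_trans (mul_le_mul_of_nonneg_right hC₁a (by linarith)) hL
  have hLκ₀ : κ₀ ≤ L := by linarith
  have hL1 : 1 ≤ L := by linarith
  have hlogL : 0 ≤ Real.log (1 + L) := Real.log_nonneg (by linarith)
  obtain ⟨G, hG⟩ : ∃ G : ℝ, G = G₀ + Real.log (1 + L) := ⟨_, rfl⟩
  have hG0 : 0 < G := by rw [hG]; positivity
  have hJ1 : n + 20 * CN / ε * G ≤ J := by
    refine le_trans ?_ hJ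
    rw [hC, hG]
    have h1 : 0 ≤ n * Real.log (1 + L) := by positivity
    have h2 : 0 ≤ 20 * CN / ε * (1 + G₀ * Real.log (1 + L)) := by positivity
    have h3 : (n + 20 * CN / ε * (G₀ + 1)) * (1 + Real.log (1 + L)) =
        n + 20 * CN / ε * (G₀ + Real.log (1 + L)) + n * Real.log (1 + L) +
        20 * CN / ε * (1 + G₀ * Real.log (1 + L)) := by ring
    rw [h3]
    linarith
  have hNJ : N < J := by
    have h1 : n < (J : ℝ) := by
      have : 0 < 20 * CN / ε * G := by positivity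
      linarith
    rw [hn] at h1
    exact_mod_cast h1
  refine ⟨hNJ, ?_⟩
  intro M μ hM hμ
  rw [← hc₁, ← hc₀, ← hn]
  obtain ⟨m, hm⟩ : ∃ m : ℝ, m = (M : ℝ) := ⟨_, rfl⟩
  rw [← hm]
  have hm0 : 0 ≤ m := by
    rw [hm]
    exact Nat.cast_nonneg _
  have hΛ0 : 0 < Λ := by linarith
  have hm1 : m * Λ ≤ n * L := by
    have h1 : m ≤ n * L / Λ := by
      rw [hm, hM, ← hn]
      exact Nat.floor_le (by positivity)
    rwa [le_div_iff₀ hΛ0] at h1
  have hm2 : n * L ≤ (m + 1) * Λ := by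
    have h1 : n * L / Λ ≤ m + 1 := by
      rw [hm, hM, ← hn]
      exact (Nat.lt_floor_add_one _).le
    rwa [div_le_iff₀ hΛ0] at h1
  have hmL : m ≤ n * L := le_trans (le_mul_of_one_le_right hm0 hΛpos) hm1
  -- P2
  have q2 : m * c₁ ≤ ε / 10 * (n * L) := by
    have h1 : 10 * c₁ / ε ≤ Λ := by
      have h2 : 100 * c₁ / ε ≤ κ := by linarith
      have h3 : 10 * c₁ / ε = 100 * c₁ / ε / 10 := by ring
      rw [h3]
      linarith
    rw [div_le_iff₀ hε0] at h1
    have h4 : m * (10 * c₁) ≤ m * (Λ * ε) := mul_le_mul_of_nonneg_left h1 hm0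
    have h5 : ε * (m * Λ) ≤ ε * (n * L) := mul_le_mul_of_nonneg_left hm1 hε0.le
    linarith
  -- P3
  have q3 := weights_part hn1 hm2 hδ0 hΛ0 hL1 hm0
  have hA : (9 / 8) * (1 + δ) * Λ = (9 / 8 + η') * Λ := by
    rw [hδ]
    ring
  rw [hA] at q3
  have q3a : n * L / (1 + δ) = n * L * (1 - ε) := by
    rw [← hε2]
    ring
  have q3b : n ≤ ε / 40 * (n * L) := by
    have h1 : 40 / ε ≤ L := by linarith
    rw [div_le_iff₀ hε0] at h1
    have h2 : n * 40 ≤ n * (L * ε) := mul_le_mul_of_nonneg_left h1 (by linarith)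
    linarith
  have q3L : 40 * L ≤ n * ε * L := mul_le_mul_of_nonneg_right hn40 (by linarith)
  have q3c : 4 * L ≤ ε / 10 * (n * L) := by linarith
  have q3d : 5 * Λ ≤ ε / 40 * (n * L) := by
    have h1 : 5 * Λ ≤ L := by linarith
    linarith
  -- P4
  have hy : 0 < 4 * m + n + 1 := by positivity
  have hz1 : L ≤ n * L := le_mul_of_one_le_left (by linarith) hn1
  have hnz : n ≤ n * L := le_mul_of_one_le_right (by linarith) hL1
  have hmn : 0 ≤ m * n := mul_nonneg hm0 (by linarith)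
  have q4 : 2 * Real.log (4 * m + n + 1) + Real.log ((m + 1) * (n + 1)) ≤ ε / 10 * (n * L) := by
    have h1 : Real.log ((m + 1) * (n + 1)) ≤ 2 * Real.log (4 * m + n + 1) := by
      have h2 : 2 * Real.log (4 * m + n + 1) = Real.log ((4 * m + n + 1) ^ 2) := by
        rw [Real.log_pow]
        norm_num
      rw [h2]
      refine Real.log_le_log (by positivity) ?_
      have h5 : (4 * m + n + 1) ^ 2 = (m + 1) * (n + 1) + (16 * m ^ 2 + n ^ 2 + 7 * (m * n) + 7 * m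
        + n) := by ring
      rw [h5]
      have h6 : 0 ≤ 16 * m ^ 2 + n ^ 2 + 7 * (m * n) + 7 * m + n := by positivity
      linarith
    have h3 := log_small (c := 4) (a := 6) (e := ε / 10) (y := 4 * m + n + 1) (z := n * L)
      (by norm_num) (by positivity) hy (by norm_num) (by linarith) (by
        have h4 : 38400 / ε ^ 2 ≤ L := by linarith
        rw [div_le_iff₀ (by positivity)] at h4
        have h5 : L * ε ^ 2 ≤ n * L * ε ^ 2 := mul_le_mul_of_nonneg_right hz1 (sq_nonneg ε)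
        linarith)
    linarith
  -- P5
  have hJN : ((J - N : ℕ) : ℝ) = J - n := by
    rw [Nat.cast_sub hNJ.le, ← hn]
  obtain ⟨w, hw⟩ : ∃ w : ℝ, w = (J : ℝ) - n := ⟨_, rfl⟩
  have hw1 : 20 * CN / ε * G ≤ w := by rw [hw]; linarith
  have hw0 : 0 < w := lt_of_lt_of_le (by positivity) hw1
  have hμ1 : (μ : ℝ) ≤ n + ((n + 1) * m + 3 / 2 * n * (n + 1)) / w := by
    rw [hμ]
    push_cast
    rw [← hn]
    have h1 := Nat.cast_div_le (α := ℝ) (m := 2 * (N + 1) * M + 3 * N * (N + 1))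
      (n := 2 * (J - N))
    have h2 : (((2 * (N + 1) * M + 3 * N * (N + 1) : ℕ) : ℝ) / ((2 * (J - N) : ℕ) : ℝ)) =
        ((n + 1) * m + 3 / 2 * n * (n + 1)) / w := by
      rw [Nat.cast_mul 2 (J - N), hJN, ← hw, hm, hn]
      push_cast
      field_simp
    rw [h2] at h1
    linarith
  have hμ0 : (0 : ℝ) ≤ μ := Nat.cast_nonneg _
  have hw1' : 1 ≤ w := by
    refine le_trans ?_ hw1
    have h1 : 1 ≤ 20 * CN / ε := by
      rw [one_le_div hε0]
      linarith
    have h2 : 1 ≤ G := by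
      rw [hG, hG₀, hC']
      linarith
    exact one_le_mul_of_one_le_of_one_le h1 h2
  have hx0 : 0 ≤ (n + 1) * m + 3 / 2 * n * (n + 1) := by positivity
  have hxw : ((n + 1) * m + 3 / 2 * n * (n + 1)) / w ≤ (n + 1) * m + 3 / 2 * n * (n + 1) :=
    div_le_self hx0 hw1'
  have hE : 10 * m + 2 * n + 11 * μ + 1 ≤ CN * (m + 1) := by
    have h1 : (μ : ℝ) ≤ n + ((n + 1) * m + 3 / 2 * n * (n + 1)) := by linarith
    have h2 : CN * (m + 1) = 100 * (m * n ^ 2) + 200 * (m * n) + 100 * m + 100 * n ^ 2 + 200 * n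
      + 100 := by
      rw [hCN]
      ring
    have h3 : n + ((n + 1) * m + 3 / 2 * n * (n + 1)) = n + m * n + m + 3 / 2 * n ^ 2 +
      3 / 2 * n := by ring
    have h4 : 0 ≤ m * n ^ 2 := by positivity
    have h5 : 0 ≤ n ^ 2 := by positivity
    rw [h2]
    rw [h3] at h1
    linarith
  have hlogE : Real.log (10 * m + 2 * n + 11 * μ + 1) ≤ Real.log CN + Real.log (m + 1) := by
    rw [← Real.log_mul (by positivity) (by positivity)]
    exact Real.log_le_log (by positivity) hE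
  obtain ⟨H, hH⟩ : ∃ H : ℝ, H = c₀ + 9 * κ + (9 / 8 + η') * Λ +
    Real.log (10 * m + 2 * n + 11 * μ + 1) := ⟨_, rfl⟩
  have hH1 : H ≤ C' * κ + Real.log CN + Real.log (m + 1) := by
    rw [hH, hC']
    have h1 : (9 / 8 + η') * Λ ≤ (9 / 8 + η') * (2 * κ) := by gcongr
    have h2 : c₀ ≤ c₀ * κ := le_mul_of_one_le_right hc₀0.le (by linarith)
    have h3 : (c₀ + 9 + 2 * (9 / 8 + η')) * κ = c₀ * κ + 9 * κ + (9 / 8 + η') * (2 * κ) := by ring
    rw [h3]
    linarith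
  have hH0 : 0 ≤ H := by
    rw [hH]
    have h1 : 0 ≤ Real.log (10 * m + 2 * n + 11 * μ + 1) := Real.log_nonneg (by linarith)
    positivity
  have hC'κ : C' * κ ≤ ε / 40 * L := by
    have h1 : 40 * C' / ε * κ ≤ L := by
      refine le_trans ?_ hL
      refine mul_le_mul_of_nonneg_right ?_ (by linarith)
      rw [hC₁]
      linarith
    have h2 : ε / 40 * (40 * C' / ε * κ) = C' * κ := by
      field_simp
    rw [← h2]
    exact mul_le_mul_of_nonneg_left h1 (by positivity)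
  have q5a : n * H ≤ 3 * (ε / 40) * (n * L) := by
    have h1 : n * Real.log (m + 1) ≤ ε / 40 * (n * L) :=
      log_small (c := n) (a := 2) (e := ε / 40) (y := m + 1) (z := n * L) (by linarith)
        (by positivity) (by positivity) (by norm_num) (by linarith) (by
        have h4 : 12800 * n / ε ^ 2 ≤ L := by linarith
        rw [div_le_iff₀ (by positivity)] at h4
        have h5 : n * (12800 * n) ≤ n * (L * ε ^ 2) := mul_le_mul_of_nonneg_left h4 (by linarith)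
        linarith)
    have h2 : Real.log CN ≤ ε / 40 * L := by
      have h4 : 40 * Real.log CN / ε ≤ L := by linarith
      rw [div_le_iff₀ hε0] at h4
      linarith
    have h3 : n * H ≤ n * (C' * κ + Real.log CN + Real.log (m + 1)) :=
      mul_le_mul_of_nonneg_left hH1 (by linarith)
    have h5 : n * (C' * κ + Real.log CN) ≤ n * (ε / 40 * L + ε / 40 * L) :=
      mul_le_mul_of_nonneg_left (by linarith) (by linarith)
    linarith
  have q5b : ((n + 1) * m + 3 / 2 * n * (n + 1)) / w * H ≤ ε / 10 * (n * L) := by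
    have h1 : (n + 1) * m + 3 / 2 * n * (n + 1) ≤ CN * (m + 1) := by
      have h2 : CN * (m + 1) = 100 * (m * n ^ 2) + 200 * (m * n) + 100 * m + 100 * n ^ 2 + 200 * n
        + 100 := by
        rw [hCN]
        ring
      have h3 : (n + 1) * m + 3 / 2 * n * (n + 1) = m * n + m + 3 / 2 * n ^ 2 + 3 / 2 * n := by ring
      have h4 : 0 ≤ m * n ^ 2 := by positivity
      have h5 : 0 ≤ n ^ 2 := by positivity
      rw [h2, h3]
      linarith
    have h2 : (m + 1) * Λ ≤ 2 * (n * L) := by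
      have : Λ ≤ n * L := by linarith
      linarith
    have h3 : H ≤ Λ * G := by
      have h4 : Real.log (m + 1) ≤ Real.log (2 * n) + Real.log (1 + L) := by
        rw [← Real.log_mul (by positivity) (by positivity)]
        refine Real.log_le_log (by positivity) ?_
        linarith
      have h5 : C' * κ ≤ C' * (10 * Λ) := mul_le_mul_of_nonneg_left (by linarith) hC'0.le
      have h6 : Real.log CN ≤ Λ * Real.log CN := le_mul_of_one_le_left hlCN.le hΛpos
      have h7 : Real.log (2 * n) + Real.log (1 + L) ≤ Λ * (Real.log (2 * n) + Real.log (1 + L)) :=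
        le_mul_of_one_le_left (by linarith) hΛpos
      rw [hG, hG₀]
      linarith
    rw [div_mul_eq_mul_div, div_le_iff₀ hw0]
    have h8 : ((n + 1) * m + 3 / 2 * n * (n + 1)) * H ≤ (CN * (m + 1)) * (Λ * G) :=
      mul_le_mul h1 h3 hH0 (by positivity)
    have h9 : (CN * (m + 1)) * (Λ * G) ≤ CN * G * (2 * (n * L)) := by
      have : (CN * (m + 1)) * (Λ * G) = CN * G * ((m + 1) * Λ) := by ring
      rw [this]
      exact mul_le_mul_of_nonneg_left h2 (by positivity)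
    have h10 : ε / 10 * (n * L) * (20 * CN / ε * G) ≤ ε / 10 * (n * L) * w :=
      mul_le_mul_of_nonneg_left hw1 (by positivity)
    have h11 : ε / 10 * (n * L) * (20 * CN / ε * G) = CN * G * (2 * (n * L)) := by
      field_simp
      ring
    linarith
  have q5 : μ * H ≤ 3 * (ε / 40) * (n * L) + ε / 10 * (n * L) := by
    have h1 : μ * H ≤ (n + ((n + 1) * m + 3 / 2 * n * (n + 1)) / w) * H :=
      mul_le_mul_of_nonneg_right hμ1 hH0
    rw [add_mul] at h1
    linarith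
  rw [← hH]
  rw [q3a] at q3
  have hpos : 0 < ε * (n * L) := by positivity
  linarith

end Pool.Agent.Work.MP_f2148a_nt.M56.GL
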