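import Pool.Agent.Work.MP_f2148a_nt.M56.GL.Integ

set_option autoImplicit false

/-!
# GL/Pt: the invariants of a point in the real coordinates (all proved)
-/

namespace Pool.Agent.Work.MP_f2148a_nt.M56.GL

open G4 G3

section pt

variable {x y α β ω τ Δ l c : ℝ} (hα : α ≠ 0) (hτ : τ ≠ 0) (hω : ω = β / (3 * α))
  (hΔ : Δ = α * τ ^ 3) (hl : l * τ ^ 4 = x - ω ^ 2)
  (hc : c * τ ^ 6 = 2 * ω ^ 3 - 6 * x * ω - 4 * y)

include hα hτ hω hΔ hl hc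

/-- the value of the quartic -/
theorem val_eq (s t X Y : ℝ) (h2 : D2 α ω τ s t ≠ 0) (hx : XI ω τ X Y ≠ 0) :
    3 * s * (X ^ 4 - 6 * x * X ^ 2 * Y ^ 2 + 8 * y * X * Y ^ 3 - 3 * x ^ 2 * Y ^ 4) +
      t * (2 * Y * (3 * α ^ 2 * X ^ 3 + 3 * α * β * X ^ 2 * Y + β ^ 2 * X * Y ^ 2
        + (3 * α * β * x + 6 * α ^ 2 * y) * Y ^ 3)) =
      9 * Δ * D2 α ω τ s t * XI ω τ X Y ^ 4 *
        (D1 α τ s / D2 α ω τ s t * pa l c (τ * Y / XI ω τ X Y) +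
          pb l c (τ * Y / XI ω τ X Y)) := by
  have hl' : l = (x - ω ^ 2) / τ ^ 4 := by
    rw [eq_div_iff (by positivity)]
    exact hl
  have hc' : c = (2 * ω ^ 3 - 6 * x * ω - 4 * y) / τ ^ 6 := by
    rw [eq_div_iff (by positivity)]
    exact hc
  have h1 : D2 α ω τ s t * XI ω τ X Y ^ 4 *
        (D1 α τ s / D2 α ω τ s t * pa l c (τ * Y / XI ω τ X Y) +
          pb l c (τ * Y / XI ω τ X Y)) =
      D1 α τ s * (XI ω τ X Y ^ 4 - 6 * l * XI ω τ X Y ^ 2 * (τ * Y) ^ 2 -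
        2 * c * XI ω τ X Y * (τ * Y) ^ 3 - 3 * l ^ 2 * (τ * Y) ^ 4) +
      D2 α ω τ s t * (2 * XI ω τ X Y ^ 3 * (τ * Y) - c * (τ * Y) ^ 4) := by
    generalize D2 α ω τ s t = d at *
    generalize XI ω τ X Y = ξ at *
    unfold pa pb
    field_simp
    ring
  have h3 : 9 * Δ * D2 α ω τ s t * XI ω τ X Y ^ 4 *
        (D1 α τ s / D2 α ω τ s t * pa l c (τ * Y / XI ω τ X Y) +
          pb l c (τ * Y / XI ω τ X Y)) = 9 * Δ * (D2 α ω τ s t * XI ω τ X Y ^ 4 *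
        (D1 α τ s / D2 α ω τ s t * pa l c (τ * Y / XI ω τ X Y) +
          pb l c (τ * Y / XI ω τ X Y))) := by ring
  rw [h3, h1, hl', hc', hΔ, hω]
  unfold D1 D2 XI
  field_simp
  ring

theorem J4_val (s t : ℝ) (h2 : D2 α ω τ s t ≠ 0) :
    jI x y α β s t = 78732 * Δ ^ 3 * D2 α ω τ s t ^ 3 * jf l c (D1 α τ s / D2 α ω τ s t) := by
  rw [J_eq hα hτ hω hΔ hl hc]
  change 78732 * Δ ^ 3 * J4 l c (D1 α τ s) (D2 α ω τ s t) = _
  generalize D2 α ω τ s t = d at *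
  unfold J4 jf
  field_simp

/-- `Hq` over any commutative ring -/
def hI {A : Type*} [CommRing A] (x y α β s t X Y : A) : A :=
  (12 * (3 * s) * X ^ 2 + 6 * (6 * α ^ 2 * t) * X * Y + 2 * (-18 * x * s + 6 * α * β * t) * Y ^ 2)
    * (2 * (-18 * x * s + 6 * α * β * t) * X ^ 2 + 6 * (24 * y * s + 2 * β ^ 2 * t) * X * Y
      + 12 * (-9 * x ^ 2 * s + (6 * α * β * x + 12 * α ^ 2 * y) * t) * Y ^ 2)
    - (3 * (6 * α ^ 2 * t) * X ^ 2 + 4 * (-18 * x * s + 6 * α * β * t) * X * Y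
      + 3 * (24 * y * s + 2 * β ^ 2 * t) * Y ^ 2) ^ 2

theorem H_val (s t X Y : ℝ) (h2 : D2 α ω τ s t ≠ 0) (hx : XI ω τ X Y ≠ 0) :
    hI x y α β s t X Y = 81 * Δ ^ 2 * D2 α ω τ s t ^ 2 * XI ω τ X Y ^ 4 *
      Hf l c (D1 α τ s / D2 α ω τ s t) (τ * Y / XI ω τ X Y) := by
  have hl' : l = (x - ω ^ 2) / τ ^ 4 := by
    rw [eq_div_iff (by positivity)]
    exact hl
  have hc' : c = (2 * ω ^ 3 - 6 * x * ω - 4 * y) / τ ^ 6 := by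
    rw [eq_div_iff (by positivity)]
    exact hc
  have h1 : D2 α ω τ s t ^ 2 * XI ω τ X Y ^ 4 *
      Hf l c (D1 α τ s / D2 α ω τ s t) (τ * Y / XI ω τ X Y) =
      (12 * D1 α τ s * XI ω τ X Y ^ 2 + 12 * D2 α ω τ s t * XI ω τ X Y * (τ * Y) -
        12 * l * D1 α τ s * (τ * Y) ^ 2) *
      (-12 * l * D1 α τ s * XI ω τ X Y ^ 2 - 12 * c * D1 α τ s * XI ω τ X Y * (τ * Y) -
        (36 * l ^ 2 * D1 α τ s + 12 * c * D2 α ω τ s t) * (τ * Y) ^ 2) -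
      (6 * D2 α ω τ s t * XI ω τ X Y ^ 2 - 24 * l * D1 α τ s * XI ω τ X Y * (τ * Y) -
        6 * c * D1 α τ s * (τ * Y) ^ 2) ^ 2 := by
    generalize D2 α ω τ s t = d at *
    generalize XI ω τ X Y = ξ at *
    unfold Hf
    field_simp
  have h3 : 81 * Δ ^ 2 * D2 α ω τ s t ^ 2 * XI ω τ X Y ^ 4 *
      Hf l c (D1 α τ s / D2 α ω τ s t) (τ * Y / XI ω τ X Y) = 81 * Δ ^ 2 *
      (D2 α ω τ s t ^ 2 * XI ω τ X Y ^ 4 *
      Hf l c (D1 α τ s / D2 α ω τ s t) (τ * Y / XI ω τ X Y)) := by ring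
  rw [h3, h1, hl', hc', hΔ, hω]
  unfold D1 D2 XI hI
  field_simp
  ring

end pt

theorem Hq_eq (x y α β s t X Y : ℤ) : Hq (q4 x y α β s t) X Y = hI x y α β s t X Y := by
  simp only [Hq, q4, hI]

end Pool.Agent.Work.MP_f2148a_nt.M56.GL
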