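import Pool.Agent.Work.MP_f2148a_nt.M56.GL.Integ
import Pool.Agent.Work.MP_f2148a_nt.M56.G4.Rows
import Pool.Agent.Work.MP_f2148a_nt.M56.LD.CB

set_option autoImplicit false

/-!
# GL/Upper: upper bound for the determinant (all proved from LD/CB)
-/

namespace Pool.Agent.Work.MP_f2148a_nt.M56.GL

open G4 MvPolynomial

/-- the polynomial `(γ - p₂)^a p₁^(M-a) r^k` -/
noncomputable def Fp (l c : ℝ) (M a k : ℕ) : MvPolynomial (Fin 2) ℝ :=
  (X 0 - pb (algebraMap ℝ _ l) (algebraMap ℝ _ c) (X 1)) ^ a *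
    pa (algebraMap ℝ _ l) (algebraMap ℝ _ c) (X 1) ^ (M - a) * X 1 ^ k

theorem td_Fp (l c : ℝ) (M N a k : ℕ) (ha : a ≤ M) (hk : k ≤ N) :
    (Fp l c M a k).totalDegree ≤ 4 * M + N := by
  unfold Fp pb pa
  refine td_mul (a := 4 * M) (b := N) (td_mul (a := 4 * a) (b := 4 * (M - a)) ?_ ?_ (by omega))
    (td_pow (a := 1) k (td_X _ le_rfl) (by omega)) le_rfl
  · refine td_pow (a := 4) a (td_sub (td_X _ (by norm_num)) (td_add (td_sub ?_ ?_) ?_)) (by omega)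
    · exact td_mul (a := 0) (b := 1) (td_num 2) (td_X _ le_rfl) (by norm_num)
    · exact td_mul (a := 0) (b := 4) (td_am _) (td_pow (a := 1) 4 (td_X _ le_rfl) (by norm_num))
        (by norm_num)
    · rw [zero_mul, totalDegree_zero]
      exact Nat.zero_le _
  · refine td_pow (a := 4) (M - a) (td_sub (td_sub (td_sub ?_ ?_) ?_) ?_) (by omega)
    · rw [← map_one C, totalDegree_C]
      exact Nat.zero_le _
    · exact td_mul (a := 0) (b := 2) (td_mul (a := 0) (b := 0) (td_num 6) (td_am _) le_rfl)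
        (td_pow (a := 1) 2 (td_X _ le_rfl) (by norm_num)) (by norm_num)
    · exact td_mul (a := 0) (b := 3) (td_mul (a := 0) (b := 0) (td_num 2) (td_am _) le_rfl)
        (td_pow (a := 1) 3 (td_X _ le_rfl) (by norm_num)) (by norm_num)
    · exact td_mul (a := 0) (b := 4) (td_mul (a := 0) (b := 0) (td_num 3)
        (td_pow (a := 0) 2 (td_am _) (by norm_num)) le_rfl)
        (td_pow (a := 1) 4 (td_X _ le_rfl) (by norm_num)) (by norm_num)

theorem wn_Fp {l c : ℝ} (hl : |l| ≤ 1) (hc : |c| ≤ 1) (M a k : ℕ) (ha : a ≤ M) :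
    wn (fun _ : Fin 2 => (1 : ℝ)) (Fp l c M a k) ≤ 12 ^ M := by
  have hw : ∀ _ : Fin 2, (0 : ℝ) ≤ 1 := fun _ => zero_le_one
  have h1 : ∀ i : Fin 2, wn (fun _ : Fin 2 => (1 : ℝ)) (X i : MvPolynomial (Fin 2) ℝ) ≤ 1 :=
    fun i => bd_X rfl
  have hl' : wn (fun _ : Fin 2 => (1 : ℝ)) (algebraMap ℝ (MvPolynomial (Fin 2) ℝ) l) ≤ 1 :=
    bd_am _ hl
  have hc' : wn (fun _ : Fin 2 => (1 : ℝ)) (algebraMap ℝ (MvPolynomial (Fin 2) ℝ) c) ≤ 1 :=
    bd_am _ hc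
  have hn : ∀ n : ℕ, wn (fun _ : Fin 2 => (1 : ℝ)) (X 1 ^ n : MvPolynomial (Fin 2) ℝ) ≤ 1 := by
    intro n
    have h := bd_pow hw (h1 1) n
    rwa [one_pow] at h
  have hpb : wn (fun _ : Fin 2 => (1 : ℝ))
      (X 0 - pb (algebraMap ℝ (MvPolynomial (Fin 2) ℝ) l) (algebraMap ℝ _ c) (X 1)) ≤ 12 := by
    unfold pb
    rw [zero_mul, add_zero]
    have h := bd_sub hw (h1 0) (bd_sub hw (bd_mul hw (wn_ofNat (w := fun _ : Fin 2 => (1 : ℝ)) 2).le
      (h1 1)) (bd_mul hw hc' (hn 4)))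
    refine h.trans ?_
    norm_num
  have hpa : wn (fun _ : Fin 2 => (1 : ℝ))
      (pa (algebraMap ℝ (MvPolynomial (Fin 2) ℝ) l) (algebraMap ℝ _ c) (X 1)) ≤ 12 := by
    unfold pa
    have hl2 : wn (fun _ : Fin 2 => (1 : ℝ)) (algebraMap ℝ (MvPolynomial (Fin 2) ℝ) l ^ 2) ≤ 1 := by
      have h := bd_pow hw hl' 2
      rwa [one_pow] at h
    have h := bd_sub hw (bd_sub hw (bd_sub hw (wn_one (fun _ : Fin 2 => (1 : ℝ))).le
      (bd_mul hw (bd_mul hw (wn_ofNat (w := fun _ : Fin 2 => (1 : ℝ)) 6).le hl') (hn 2)))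
      (bd_mul hw (bd_mul hw (wn_ofNat (w := fun _ : Fin 2 => (1 : ℝ)) 2).le hc') (hn 3)))
      (bd_mul hw (bd_mul hw (wn_ofNat (w := fun _ : Fin 2 => (1 : ℝ)) 3).le hl2) (hn 4))
    refine h.trans ?_
    norm_num
  unfold Fp
  have h := bd_mul hw (bd_mul hw (bd_pow hw hpb a) (bd_pow hw hpa (M - a))) (hn k)
  refine h.trans ?_
  rw [mul_one, ← pow_add, Nat.add_sub_cancel' ha]

theorem coeff_le_wn (p : MvPolynomial (Fin 2) ℝ) (m : Fin 2 →₀ ℕ) :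
    |p.coeff m| ≤ wn (fun _ : Fin 2 => (1 : ℝ)) p := by
  by_cases hm : m ∈ p.support
  · unfold wn
    have h1 : |p.coeff m| * wm (fun _ : Fin 2 => (1 : ℝ)) m ≤
        ∑ m ∈ p.support, |p.coeff m| * wm (fun _ : Fin 2 => (1 : ℝ)) m :=
      Finset.single_le_sum (f := fun m => |p.coeff m| * wm (fun _ : Fin 2 => (1 : ℝ)) m)
        (fun m _ => mul_nonneg (abs_nonneg _) (wm_nonneg (fun _ => zero_le_one) m)) hm
    have h2 : wm (fun _ : Fin 2 => (1 : ℝ)) m = 1 := by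
      unfold wm
      simp
    rw [h2, mul_one] at h1
    exact h1
  · rw [notMem_support_iff.1 hm, abs_zero]
    exact wn_nonneg (fun _ => zero_le_one) p

/-- the exponent `(j, b)` -/
noncomputable def ex (j b : ℕ) : Fin 2 →₀ ℕ := Finsupp.single 0 j + Finsupp.single 1 b

theorem ex_eq (m : Fin 2 →₀ ℕ) : ex (m 0) (m 1) = m := by
  ext i
  unfold ex
  fin_cases i <;> simp

theorem mono_ex (j b : ℕ) (a : ℝ) :
    monomial (ex j b) a = a • ((X 0 : MvPolynomial (Fin 2) ℝ) ^ j * X 1 ^ b) := by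
  rw [smul_eq_C_mul, ex, X_pow_eq_monomial, X_pow_eq_monomial, monomial_mul, C_mul_monomial]
  simp

theorem expand (p : MvPolynomial (Fin 2) ℝ) (n : ℕ) (h : p.totalDegree ≤ n) :
    p = ∑ x : Fin (n + 1) × Fin (n + 1), p.coeff (ex x.1 x.2) •
      ((X 0 : MvPolynomial (Fin 2) ℝ) ^ (x.1 : ℕ) * X 1 ^ (x.2 : ℕ)) := by
  classical
  conv_lhs => rw [p.as_sum]
  have hb : ∀ m ∈ p.support, m 0 ≤ n ∧ m 1 ≤ n := by
    intro m hm
    have h1 := le_totalDegree hm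
    have h2 : m 0 ≤ m.sum fun _ e => e := by
      by_cases h0 : m 0 = 0
      · rw [h0]
        exact Nat.zero_le _
      · exact Finset.single_le_sum (f := fun i => m i) (fun _ _ => Nat.zero_le _)
          (Finsupp.mem_support_iff.2 h0)
    have h3 : m 1 ≤ m.sum fun _ e => e := by
      by_cases h0 : m 1 = 0
      · rw [h0]
        exact Nat.zero_le _
      · exact Finset.single_le_sum (f := fun i => m i) (fun _ _ => Nat.zero_le _)
          (Finsupp.mem_support_iff.2 h0)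
    omega
  symm
  rw [← Finset.sum_subset (Finset.subset_univ (Finset.univ.filter fun x : Fin (n + 1) × Fin (n + 1)
    => ex x.1 x.2 ∈ p.support))]
  · refine Finset.sum_bij (fun x _ => ex x.1 x.2) (fun x hx => (Finset.mem_filter.1 hx).2)
      (fun x _ y _ hxy => ?_) (fun m hm => ?_) (fun x _ => ?_)
    · have h0 := DFunLike.congr_fun hxy 0
      have h1 := DFunLike.congr_fun hxy 1
      unfold ex at h0 h1
      simp at h0 h1
      exact Prod.ext (Fin.ext h0) (Fin.ext h1)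
    · obtain ⟨h0, h1⟩ := hb m hm
      refine ⟨(⟨m 0, by omega⟩, ⟨m 1, by omega⟩), ?_, ex_eq m⟩
      rw [Finset.mem_filter]
      refine ⟨Finset.mem_univ _, ?_⟩
      change ex (m 0) (m 1) ∈ p.support
      rw [ex_eq]
      exact hm
    · rw [mono_ex]
  · intro x _ hx
    rw [Finset.mem_filter, not_and] at hx
    have h2 := hx (Finset.mem_univ x)
    rw [notMem_support_iff] at h2
    rw [h2, zero_smul]

theorem pa_ge {l c r : ℝ} (hl : |l| ≤ 1) (hc : |c| ≤ 1) (hr : |r| ≤ 1 / 5) : 1 / 2 ≤ pa l c r := by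
  have hr2 : r ^ 2 ≤ 1 / 25 := by
    have := abs_le.1 hr
    nlinarith
  have hr3 : |r ^ 3| ≤ 1 / 125 := by
    rw [abs_pow]
    calc |r| ^ 3 ≤ (1 / 5) ^ 3 := pow_le_pow_left₀ (abs_nonneg _) hr 3
      _ = 1 / 125 := by norm_num
  have hr4 : |r ^ 4| ≤ 1 / 625 := by
    rw [abs_pow]
    calc |r| ^ 4 ≤ (1 / 5) ^ 4 := pow_le_pow_left₀ (abs_nonneg _) hr 4
      _ = 1 / 625 := by norm_num
  unfold pa
  have e1 : l * r ^ 2 ≤ 1 / 25 := by
    calc l * r ^ 2 ≤ |l| * r ^ 2 := mul_le_mul_of_nonneg_right (le_abs_self l) (sq_nonneg r)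
      _ ≤ 1 * (1 / 25) := mul_le_mul hl hr2 (sq_nonneg r) (by norm_num)
      _ = _ := by norm_num
  have e2 : c * r ^ 3 ≤ 1 / 125 := by
    calc c * r ^ 3 ≤ |c * r ^ 3| := le_abs_self _
      _ = |c| * |r ^ 3| := abs_mul _ _
      _ ≤ 1 * (1 / 125) := mul_le_mul hc hr3 (abs_nonneg _) (by norm_num)
      _ = _ := by norm_num
  have e3 : l ^ 2 * r ^ 4 ≤ 1 / 625 := by
    calc l ^ 2 * r ^ 4 ≤ |l ^ 2 * r ^ 4| := le_abs_self _
      _ = |l| ^ 2 * |r ^ 4| := by rw [abs_mul, abs_pow]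
      _ ≤ 1 ^ 2 * (1 / 625) := mul_le_mul (pow_le_pow_left₀ (abs_nonneg _) hl 2) hr4
          (abs_nonneg _) (by norm_num)
      _ = _ := by norm_num
  linarith

theorem upper {l c ρ g : ℝ} (hl : |l| ≤ 1) (hc : |c| ≤ 1) (hρ : 0 < ρ) (hρ1 : ρ ≤ 1 / 5)
    (hg : 0 ≤ g) (hg1 : g ≤ 1) (M N μ : ℕ) {κ : Type*} (u r : κ → ℝ) (hr : ∀ i, |r i| ≤ ρ)
    (hu : ∀ i, |u i * pa l c (r i) + pb l c (r i)| ≤ g)
    (sel : Fin ((M + 1) * (N + 1)) → κ × ℕ) (hsel : ∀ a, (sel a).2 ≤ μ) (W : ℝ) (hW0 : 0 ≤ W)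
    (hW : ∀ f : Fin ((M + 1) * (N + 1)) → ℕ × ℕ, Function.Injective f →
      ∏ a, (g ^ (f a).1 * ρ ^ (f a).2) ≤ W) :
    |(Matrix.of fun a => rowW l c M N (u (sel a).1) (r (sel a).1) (sel a).2).det| ≤
      (∏ a, (cost c ρ g * (10 * M + 2 * N + 11 * μ + 1 : ℕ)) ^ (sel a).2) *
      (((4 * M + N + 1) ^ 2 : ℕ) ^ ((M + 1) * (N + 1)) *
        (((M + 1) * (N + 1)).factorial : ℝ) * (24 ^ M) ^ ((M + 1) * (N + 1)) * W) := by
  have hcost : 0 ≤ cost c ρ g := by linarith [cost_ge (c := c) hρ hg]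
  obtain ⟨E, hE⟩ : ∃ E : ℕ, E = 10 * M + 2 * N + 11 * μ + 1 := ⟨_, rfl⟩
  rw [← hE]
  -- the functionals
  have hΦ : ∀ a : Fin ((M + 1) * (N + 1)), ∃ Φ : MvPolynomial (Fin 2) ℝ →ₗ[ℝ] ℝ,
      (∀ b : Fin ((M + 1) * (N + 1)), rowW l c M N (u (sel a).1) (r (sel a).1) (sel a).2 b =
        Φ (Fp l c M (ix M N b).1 (N - ((ix M N b).2 : ℕ)))) ∧
      ∀ j b : ℕ, |Φ (X 0 ^ j * X 1 ^ b)| ≤
        2 ^ M * g ^ j * ρ ^ b * (cost c ρ g * (M + j + b + 11 * (sel a).2 : ℕ)) ^ (sel a).2 := by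
    intro a
    obtain ⟨Φ, h1, h2⟩ := entry hl hc hρ hρ1 hg hg1 (hr (sel a).1) (hu (sel a).1) M (sel a).2
    refine ⟨Φ, fun b => ?_, h2⟩
    rw [rowW, mo, h1 _ _ (Nat.lt_succ_iff.1 (ix M N b).1.2), Fp]
  choose Φ h1 h2 using hΦ
  have hE1 : (0 : ℝ) < E := by
    have : 0 < E := by omega
    exact_mod_cast this
  have hEpos : 0 < cost c ρ g * (E : ℝ) :=
    mul_pos (by linarith [cost_ge (c := c) hρ hg]) hE1
  have hE0 : cost c ρ g * (E : ℝ) ≠ 0 := hEpos.ne'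
  -- the two factors
  let n := 4 * M + N
  let A : Matrix (Fin ((M + 1) * (N + 1))) (Fin (n + 1) × Fin (n + 1)) ℝ := fun a x =>
    ((cost c ρ g * (E : ℝ)) ^ (sel a).2)⁻¹ * Φ a (X 0 ^ (x.1 : ℕ) * X 1 ^ (x.2 : ℕ))
  let B : Matrix (Fin (n + 1) × Fin (n + 1)) (Fin ((M + 1) * (N + 1))) ℝ := fun x b =>
    (Fp l c M (ix M N b).1 (N - ((ix M N b).2 : ℕ))).coeff (ex x.1 x.2)
  have hAB : (Matrix.of fun a => rowW l c M N (u (sel a).1) (r (sel a).1) (sel a).2) =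
      Matrix.of fun a b => (cost c ρ g * (E : ℝ)) ^ (sel a).2 * (A * B) a b := by
    ext a b
    rw [Matrix.of_apply, Matrix.of_apply, h1, Matrix.mul_apply]
    have h5 := expand (Fp l c M (ix M N b).1 (N - ((ix M N b).2 : ℕ))) n
      (td_Fp l c M N _ _ (Nat.lt_succ_iff.1 (ix M N b).1.2) (Nat.sub_le _ _))
    conv_lhs => rw [h5]
    rw [map_sum, Finset.mul_sum]
    refine Finset.sum_congr rfl fun x _ => ?_
    rw [map_smul, smul_eq_mul]
    change _ = _ * (((cost c ρ g * (E : ℝ)) ^ (sel a).2)⁻¹ * _ * _)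
    have h6 : (cost c ρ g * (E : ℝ)) ^ (sel a).2 ≠ 0 := pow_ne_zero _ hE0
    field_simp
    exact mul_comm _ _
  rw [hAB, Matrix.det_mul_column, abs_mul, Finset.abs_prod]
  have h7 : ∏ a, |(cost c ρ g * (E : ℝ)) ^ (sel a).2| = ∏ a, (cost c ρ g * (E : ℝ)) ^ (sel a).2 :=
    Finset.prod_congr rfl fun a _ => abs_of_nonneg (pow_nonneg hEpos.le _)
  rw [h7]
  refine mul_le_mul_of_nonneg_left ?_ (Finset.prod_nonneg fun a _ => pow_nonneg hEpos.le _)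
  have h8 := LD.det_le A B (fun x => g ^ (x.1 : ℕ) * ρ ^ (x.2 : ℕ))
    (fun x => mul_nonneg (pow_nonneg hg _) (pow_nonneg hρ.le _)) (2 ^ M) (by positivity)
    (fun a x => ?_) (fun _ => 12 ^ M) (fun _ => by positivity) (fun x b => ?_) W hW0 (fun f hf => ?_)
  · refine h8.trans (le_of_eq ?_)
    rw [Fintype.card_prod, Fintype.card_fin, Fintype.card_fin, Finset.prod_const,
      Finset.card_univ, Fintype.card_fin]
    have h9 : (24 : ℝ) ^ M = 2 ^ M * 12 ^ M := by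
      rw [← mul_pow]
      norm_num
    have h10 : (n + 1) * (n + 1) = (4 * M + N + 1) ^ 2 := by
      change (4 * M + N + 1) * (4 * M + N + 1) = _
      rw [sq]
    rw [h9, mul_pow, h10]
    generalize (M + 1) * (N + 1) = D
    generalize (((4 * M + N + 1) ^ 2 : ℕ) : ℝ) = q
    ring
  · change |((cost c ρ g * (E : ℝ)) ^ (sel a).2)⁻¹ * Φ a (X 0 ^ (x.1 : ℕ) * X 1 ^ (x.2 : ℕ))| ≤ _
    rw [abs_mul, abs_inv, abs_of_nonneg (pow_nonneg hEpos.le _),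
      inv_mul_le_iff₀ (pow_pos hEpos _)]
    refine (h2 a _ _).trans ?_
    have h10 : (cost c ρ g * (M + (x.1 : ℕ) + (x.2 : ℕ) + 11 * (sel a).2 : ℕ)) ^ (sel a).2 ≤
        (cost c ρ g * (E : ℝ)) ^ (sel a).2 := by
      refine pow_le_pow_left₀ (mul_nonneg hcost (Nat.cast_nonneg _))
        (mul_le_mul_of_nonneg_left ?_ hcost) _
      have e1 := x.1.2
      have e2 := x.2.2
      have e3 := hsel a
      have e4 : M + (x.1 : ℕ) + (x.2 : ℕ) + 11 * (sel a).2 ≤ E := by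
        change (x.1 : ℕ) < 4 * M + N + 1 at e1
        change (x.2 : ℕ) < 4 * M + N + 1 at e2
        omega
      exact_mod_cast e4
    have h11 : 0 ≤ 2 ^ M * g ^ (x.1 : ℕ) * ρ ^ (x.2 : ℕ) := by positivity
    calc _ ≤ 2 ^ M * g ^ (x.1 : ℕ) * ρ ^ (x.2 : ℕ) * (cost c ρ g * (E : ℝ)) ^ (sel a).2 :=
          mul_le_mul_of_nonneg_left h10 h11
      _ = _ := by ring
  · change |(Fp l c M (ix M N b).1 (N - ((ix M N b).2 : ℕ))).coeff (ex x.1 x.2)| ≤ _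
    exact (coeff_le_wn _ _).trans (wn_Fp hl hc M _ _ (Nat.lt_succ_iff.1 (ix M N b).1.2))
  · refine hW (fun a => ((f a).1, (f a).2)) fun a b hab => hf ?_
    have h12 := (Prod.ext_iff.1 hab).1
    have h13 := (Prod.ext_iff.1 hab).2
    exact Prod.ext (Fin.ext h12) (Fin.ext h13)

end Pool.Agent.Work.MP_f2148a_nt.M56.GL
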