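import Mathlib

set_option autoImplicit false

/-!
# GL/Wgt: the sum of the weights of distinct monomials (all proved, Mathlib only)
-/

namespace Pool.Agent.Work.MP_f2148a_nt.M56.GL

theorem sum_one (A : ℝ) (hA : 0 < A) (m : ℕ) (X : ℝ) :
    ∑ j ∈ Finset.range m, max 0 (X - A * j) ≤ max 0 X ^ 2 / (2 * A) + max 0 X := by
  induction m generalizing X with
  | zero =>
    rw [Finset.range_zero, Finset.sum_empty]
    have := le_max_left 0 X
    positivity
  | succ m ih =>
    rw [Finset.sum_range_succ']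
    have h1 : ∀ j : ℕ, max 0 (X - A * ((j + 1 : ℕ) : ℝ)) = max 0 (X - A - A * j) := by
      intro j
      push_cast
      congr 1
      ring
    simp_rw [h1]
    have h2 := ih (X - A)
    have h3 : max 0 (X - A * ((0 : ℕ) : ℝ)) = max 0 X := by
      push_cast
      rw [mul_zero, sub_zero]
    rw [h3]
    have h4 : max 0 (X - A) ^ 2 / (2 * A) + max 0 (X - A) ≤ max 0 X ^ 2 / (2 * A) := by
      rcases le_total X A with h | h
      · rw [max_eq_left (by linarith : X - A ≤ 0)]
        have := le_max_left 0 X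
        have h5 : 0 ≤ max 0 X ^ 2 / (2 * A) := by positivity
        simpa using h5
      · rw [max_eq_right (by linarith : (0 : ℝ) ≤ X - A), max_eq_right (by linarith : (0 : ℝ) ≤ X),
          div_add' _ _ _ (by positivity), div_le_div_iff_of_pos_right (by positivity)]
        nlinarith
    linarith

theorem sum_sq (A : ℝ) (hA : 0 < A) (m : ℕ) (X : ℝ) :
    ∑ j ∈ Finset.range m, max 0 (X - A * j) ^ 2 ≤ max 0 X ^ 3 / (3 * A) + max 0 X ^ 2 := by
  induction m generalizing X with
  | zero =>
    rw [Finset.range_zero, Finset.sum_empty]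
    have := le_max_left 0 X
    positivity
  | succ m ih =>
    rw [Finset.sum_range_succ']
    have h1 : ∀ j : ℕ, max 0 (X - A * ((j + 1 : ℕ) : ℝ)) = max 0 (X - A - A * j) := by
      intro j
      push_cast
      congr 1
      ring
    simp_rw [h1]
    have h2 := ih (X - A)
    have h3 : max 0 (X - A * ((0 : ℕ) : ℝ)) = max 0 X := by
      push_cast
      rw [mul_zero, sub_zero]
    rw [h3]
    have h4 : max 0 (X - A) ^ 3 / (3 * A) + max 0 (X - A) ^ 2 ≤ max 0 X ^ 3 / (3 * A) := by
      rcases le_total X A with h | h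
      · rw [max_eq_left (by linarith : X - A ≤ 0)]
        have := le_max_left 0 X
        have h5 : 0 ≤ max 0 X ^ 3 / (3 * A) := by positivity
        simpa using h5
      · rw [max_eq_right (by linarith : (0 : ℝ) ≤ X - A), max_eq_right (by linarith : (0 : ℝ) ≤ X),
          div_add' _ _ _ (by positivity), div_le_div_iff_of_pos_right (by positivity)]
        have h6 : 0 ≤ A ^ 2 * (3 * X - 2 * A) := mul_nonneg (sq_nonneg A) (by linarith)
        nlinarith [h6]
    linarith

theorem sum_box (A b T : ℝ) (hA : 0 < A) (hb : 0 < b) (hT : 0 ≤ T) (n m : ℕ) :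
    ∑ x ∈ Finset.range n ×ˢ Finset.range m, max 0 (T - (b * x.1 + A * x.2)) ≤
      T ^ 3 / (6 * A * b) + T ^ 2 / (2 * A) + T ^ 2 / (2 * b) + T := by
  rw [Finset.sum_product]
  have h1 : ∀ i ∈ Finset.range n, ∑ j ∈ Finset.range m, max 0 (T - (b * (i : ℕ) + A * (j : ℕ))) ≤
      max 0 (T - b * i) ^ 2 / (2 * A) + max 0 (T - b * i) := by
    intro i _
    refine le_trans (le_of_eq ?_) (sum_one A hA m (T - b * i))
    refine Finset.sum_congr rfl fun j _ => ?_
    congr 1
    ring
  refine (Finset.sum_le_sum h1).trans ?_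
  rw [Finset.sum_add_distrib, ← Finset.sum_div]
  have h2 := sum_sq b hb n T
  have h3 := sum_one b hb n T
  rw [max_eq_right hT] at h2 h3
  have h4 : (∑ i ∈ Finset.range n, max 0 (T - b * i) ^ 2) / (2 * A) ≤
      (T ^ 3 / (3 * b) + T ^ 2) / (2 * A) := by
    gcongr
  refine (add_le_add h4 h3).trans (le_of_eq ?_)
  field_simp
  ring

/-- The total weight of `D` distinct monomials. -/
theorem sum_weights (A b T : ℝ) (hA : 0 < A) (hb : 0 < b) (hT : 0 ≤ T) {D : ℕ}
    (f : Fin D → ℕ × ℕ) (hf : Function.Injective f) :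
    T * D - (T ^ 3 / (6 * A * b) + T ^ 2 / (2 * A) + T ^ 2 / (2 * b) + T) ≤
      ∑ a, (b * (f a).1 + A * (f a).2) := by
  classical
  obtain ⟨n, hn⟩ : ∃ n : ℕ, ∀ a, (f a).1 < n ∧ (f a).2 < n := by
    refine ⟨∑ a, ((f a).1 + (f a).2 + 1), fun a => ?_⟩
    have h := Finset.single_le_sum (f := fun a => (f a).1 + (f a).2 + 1)
      (fun _ _ => Nat.zero_le _) (Finset.mem_univ a)
    omega
  have h1 : ∑ a, max 0 (T - (b * (f a).1 + A * (f a).2)) ≤
      ∑ x ∈ Finset.range n ×ˢ Finset.range n, max 0 (T - (b * x.1 + A * x.2)) := by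
    rw [← Finset.sum_image (s := Finset.univ) (g := f)
      (f := fun x : ℕ × ℕ => max 0 (T - (b * x.1 + A * x.2))) (fun a _ b _ h => hf h)]
    refine Finset.sum_le_sum_of_subset_of_nonneg ?_ fun _ _ _ => le_max_left _ _
    intro x hx
    obtain ⟨a, _, rfl⟩ := Finset.mem_image.1 hx
    rw [Finset.mem_product, Finset.mem_range, Finset.mem_range]
    exact hn a
  have h2 := sum_box A b T hA hb hT n n
  have h3 : ∑ a, (T - (b * ((f a).1 : ℝ) + A * (f a).2)) ≤
      ∑ a, max 0 (T - (b * ((f a).1 : ℝ) + A * (f a).2)) :=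
    Finset.sum_le_sum fun _ _ => le_max_right _ _
  rw [Finset.sum_sub_distrib, Finset.sum_const, Finset.card_univ, Fintype.card_fin,
    nsmul_eq_mul] at h3
  linarith

end Pool.Agent.Work.MP_f2148a_nt.M56.GL
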