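import Pool.Agent.Work.MP_f2148a_nt.M56.Box
import Pool.Agent.Work.MP_f2148a_nt.M56.GL.Upper
import Pool.Agent.Work.MP_f2148a_nt.M56.GL.Wgt
import Pool.Agent.Work.MP_f2148a_nt.M56.GL.Num
import Pool.Agent.Work.MP_f2148a_nt.M56.GL.Pt

set_option autoImplicit false

/-!
# GL/Rows: one inequality for the points of a box (all proved)
-/

namespace Pool.Agent.Work.MP_f2148a_nt.M56.GL

open G4 G3

/-- everything about the rows in one statement -/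
theorem rows {x y α β : ℤ} {ω τ Δ l c ρ g σ Q' : ℝ} {K : ℝ} (hα : 1 ≤ α) (hτ : 0 < τ) (hτ1 : τ ≤ 1)
    (hd : Dep (Z0 x y α β) ω τ Δ l c) (hl : |l| ≤ 1) (hc : |c| ≤ 1) (hΔ : 1 / 4 ≤ Δ)
    (hΔK : Δ ≤ K) (hK : 1 ≤ K) (hωK : 2 * |ω| / (3 * α * τ) ≤ K ^ 2) (hσ1 : 1 ≤ σ)
    (hρ : 0 < ρ) (hρ1 : ρ ≤ 1 / 20) (hg0 : 0 ≤ g) (hg : g ≤ 1 / 5) (hQ' : 0 ≤ Q')
    {κ : Type} [Fintype κ] (s t X Y : κ → ℤ) (ht : ∀ i, t i ≠ 0)
    (hval : ∀ i, 3 * s i * F0 x y (X i) (Y i) + t i * G1 x y α β (X i) (Y i) = 3)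
    (hJ : ∀ i, J432 (q4 x y α β (s i) (t i)) ≠ 0)
    (hr : ∀ i, |τ * (Y i : ℝ)| ≤ ρ * |XI ω τ (X i) (Y i)|)
    (hξ : ∀ i, 4 / 3 ≤ g * XI ω τ (X i) (Y i) ^ 4)
    (hξ2 : ∀ i, |XI ω τ (X i) (Y i)| ≤ Q')
    (h21 : ∀ i, 1 ≤ |D2 α ω τ (s i) (t i)|) (h22 : ∀ i, |D2 α ω τ (s i) (t i)| ≤ σ)
    (hst : ∀ i j, i ≠ j → s i * t j ≠ s j * t i)
    (hinv : ∀ i j, i ≠ j →
      (Hq (q4 x y α β (s i) (t i)) (X i) (Y i)) ^ 3 * J432 (q4 x y α β (s j) (t j)) ≠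
      (Hq (q4 x y α β (s j) (t j)) (X j) (Y j)) ^ 3 * J432 (q4 x y α β (s i) (t i)))
    (M N μ : ℕ)
    (hμ : 2 * (N + 1) * M + 3 * N * (N + 1) < 2 * ((Fintype.card κ - N) * (μ + 1 - N)))
    (W : ℝ) (hW0 : 0 ≤ W)
    (hW : ∀ f : Fin ((M + 1) * (N + 1)) → ℕ × ℕ, Function.Injective f →
      ∏ a, (g ^ (f a).1 * ρ ^ (f a).2) ≤ W) :
    1 ≤ 9 ^ ((N + 1) * (M * (M + 1) / 2)) *
      ((157464 * K ^ 5 * σ ^ 2 * (918 / ρ) * (10 * M + 2 * N + 11 * μ + 1 : ℕ)) ^ μ *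
        (σ ^ M * Q' ^ N)) ^ ((M + 1) * (N + 1)) *
      (((4 * M + N + 1) ^ 2 : ℕ) ^ ((M + 1) * (N + 1)) *
        (((M + 1) * (N + 1)).factorial : ℝ) * (24 ^ M) ^ ((M + 1) * (N + 1)) * W) := by
  obtain ⟨q1, q2, q3, q4'⟩ := of_dep hα hτ hd
  have hα1 : (1 : ℝ) ≤ α := by exact_mod_cast hα
  have hα0 : (α : ℝ) ≠ 0 := by linarith
  have hτ0 : τ ≠ 0 := hτ.ne'
  have hΔ0 : 0 < Δ := by linarith
  have hd0 : ∀ i, D2 α ω τ (s i) (t i) ≠ 0 := fun i h => by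
    have := h21 i
    rw [h, abs_zero] at this
    linarith
  have hx0 : ∀ i, XI ω τ (X i) (Y i) ≠ 0 := fun i h => by
    have := hξ i
    rw [h] at this
    norm_num at this
  obtain ⟨u, hu⟩ : ∃ u : κ → ℝ, ∀ i, u i = D1 α τ (s i) / D2 α ω τ (s i) (t i) := ⟨_, fun _ => rfl⟩
  obtain ⟨r, hrr⟩ : ∃ r : κ → ℝ, ∀ i, r i = τ * Y i / XI ω τ (X i) (Y i) := ⟨_, fun _ => rfl⟩
  -- the value
  have hv : ∀ i, u i * pa l c (r i) + pb l c (r i) =
      1 / (3 * Δ * D2 α ω τ (s i) (t i) * XI ω τ (X i) (Y i) ^ 4) := by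
    intro i
    have h1 := val_eq hα0 hτ0 q2 q1 q3 q4' (s i) (t i) (X i) (Y i) (hd0 i) (hx0 i)
    have h2 : ((3 * s i * F0 x y (X i) (Y i) + t i * G1 x y α β (X i) (Y i) : ℤ) : ℝ) = 3 := by
      rw [hval i]
      norm_num
    unfold F0 G1 at h2
    push_cast at h2
    rw [h2, ← hu, ← hrr] at h1
    have h3 : 9 * Δ * D2 α ω τ (s i) (t i) * XI ω τ (X i) (Y i) ^ 4 ≠ 0 :=
      mul_ne_zero (mul_ne_zero (mul_ne_zero (by norm_num) hΔ0.ne') (hd0 i)) (pow_ne_zero _ (hx0 i))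
    have h4 : u i * pa l c (r i) + pb l c (r i) =
        3 / (9 * Δ * D2 α ω τ (s i) (t i) * XI ω τ (X i) (Y i) ^ 4) := by
      rw [eq_div_iff h3]
      linarith
    rw [h4, show 9 * Δ * D2 α ω τ (s i) (t i) * XI ω τ (X i) (Y i) ^ 4 =
      3 * (3 * Δ * D2 α ω τ (s i) (t i) * XI ω τ (X i) (Y i) ^ 4) by ring, div_mul_eq_div_div]
    norm_num
  have hga : ∀ i, |u i * pa l c (r i) + pb l c (r i)| ≤ g := by
    intro i
    rw [hv i, abs_div, abs_one, abs_mul, abs_mul, abs_mul, abs_pow, abs_of_pos hΔ0,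
      abs_of_pos (by norm_num : (0 : ℝ) < 3)]
    have h1 : |XI ω τ (X i) (Y i)| ^ 4 = XI ω τ (X i) (Y i) ^ 4 := by
      rw [← abs_pow, abs_of_nonneg (by positivity)]
    rw [h1]
    have h2 := hξ i
    have h3 := h21 i
    have h4 : 0 < XI ω τ (X i) (Y i) ^ 4 := by
      have := hx0 i
      positivity
    rw [div_le_iff₀ (by positivity)]
    have h5 : 3 / 4 ≤ 3 * Δ * |D2 α ω τ (s i) (t i)| := by nlinarith
    have h6 : 0 ≤ g * XI ω τ (X i) (Y i) ^ 4 := by positivity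
    nlinarith
  have hrρ : ∀ i, |r i| ≤ ρ := by
    intro i
    rw [hrr, abs_div, div_le_iff₀ (abs_pos.2 (hx0 i))]
    exact hr i
  have huinj : Function.Injective u := by
    intro i j hij
    by_contra hne
    rw [hu, hu, div_eq_div_iff (hd0 i) (hd0 j)] at hij
    have h1 : D1 α τ (s i) * D2 α ω τ (s j) (t j) - D1 α τ (s j) * D2 α ω τ (s i) (t i) =
        ((s i : ℝ) * t j - s j * t i) / 9 := by
      unfold D1 D2
      field_simp
      ring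
    have h2 : (s i : ℝ) * t j = s j * t i := by
      have : ((s i : ℝ) * t j - s j * t i) / 9 = 0 := by
        rw [← h1]
        linarith
      linarith
    exact hst i j hne (by exact_mod_cast h2)
  have hJr : ∀ i, (J432 (q4 x y α β (s i) (t i)) : ℝ) = 78732 * Δ ^ 3 *
      D2 α ω τ (s i) (t i) ^ 3 * jf l c (u i) := by
    intro i
    rw [J432_eq, hu, ← J4_val hα0 hτ0 q2 q1 q3 q4' (s i) (t i) (hd0 i)]
    unfold jI
    push_cast
    ring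
  have hjf : ∀ i, jf l c (u i) ≠ 0 := by
    intro i h
    have h1 := hJr i
    rw [h, mul_zero] at h1
    exact hJ i (by exact_mod_cast h1)
  have hHr : ∀ i, (Hq (q4 x y α β (s i) (t i)) (X i) (Y i) : ℝ) = 81 * Δ ^ 2 *
      D2 α ω τ (s i) (t i) ^ 2 * XI ω τ (X i) (Y i) ^ 4 * Hf l c (u i) (r i) := by
    intro i
    rw [Hq_eq, hu, hrr, ← H_val hα0 hτ0 q2 q1 q3 q4' (s i) (t i) (X i) (Y i) (hd0 i) (hx0 i)]
    unfold hI
    push_cast
    ring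
  have hcc : ∀ i j, i ≠ j →
      Hf l c (u i) (r i) ^ 3 * ((u j * pa l c (r j) + pb l c (r j)) ^ 3 * jf l c (u j)) ≠
      Hf l c (u j) (r j) ^ 3 * ((u i * pa l c (r i) + pb l c (r i)) ^ 3 * jf l c (u i)) := by
    intro i j hij heq
    apply hinv i j hij
    have h1 : ∀ i j, (Hq (q4 x y α β (s i) (t i)) (X i) (Y i) : ℝ) ^ 3 *
        (J432 (q4 x y α β (s j) (t j)) : ℝ) =
        (81 ^ 3 * 78732 * 27 * Δ ^ 12 * (D2 α ω τ (s i) (t i) ^ 6 * XI ω τ (X i) (Y i) ^ 12) *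
          (D2 α ω τ (s j) (t j) ^ 6 * XI ω τ (X j) (Y j) ^ 12)) *
        (Hf l c (u i) (r i) ^ 3 * ((u j * pa l c (r j) + pb l c (r j)) ^ 3 * jf l c (u j))) := by
      intro i j
      have h2 := hd0 j
      have h3 := hx0 j
      have h4 := hΔ0.ne'
      rw [hHr, hJr, hv j]
      field_simp
      ring
    have h5 : ((Hq (q4 x y α β (s i) (t i)) (X i) (Y i) : ℝ)) ^ 3 *
        (J432 (q4 x y α β (s j) (t j)) : ℝ) =
        (Hq (q4 x y α β (s j) (t j)) (X j) (Y j) : ℝ) ^ 3 *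
        (J432 (q4 x y α β (s i) (t i)) : ℝ) := by
      rw [h1, h1, heq]
      ring
    exact_mod_cast h5
  obtain ⟨sel, hdet, hsel, hsp⟩ := exists_sel l c M N μ u r huinj hjf hcc hμ
  have hint := integ hα hτ hd M N s t X Y hΔ0.ne' ht hd0 hx0 u r hu hrr sel hdet hsp
  have hup := upper hl hc hρ (by linarith) hg0 (by linarith) M N μ u r hrρ hga sel hsel W hW0 hW
  obtain ⟨E, hE⟩ : ∃ E : ℕ, E = 10 * M + 2 * N + 11 * μ + 1 := ⟨_, rfl⟩
  rw [← hE] at hup ⊢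
  have hE1 : (1 : ℝ) ≤ E := by
    have : 1 ≤ E := by omega
    exact_mod_cast this
  -- bounds
  have hu1 : ∀ i, |u i| ≤ 1 := by
    intro i
    have h1 := pa_ge hl hc ((hrρ i).trans (by linarith : ρ ≤ 1 / 5))
    have h2 := hga i
    have h3 : |pb l c (r i)| ≤ 3 * ρ := by
      unfold pb
      rw [zero_mul, add_zero]
      have h4 := hrρ i
      have h5 : |c * r i ^ 4| ≤ ρ := by
        rw [abs_mul, abs_pow]
        have h6 : |r i| ^ 4 ≤ |r i| := by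
          have h7 : |r i| ≤ 1 := by linarith
          have h8 := abs_nonneg (r i)
          calc |r i| ^ 4 = |r i| * |r i| ^ 3 := by ring
            _ ≤ |r i| * 1 := mul_le_mul_of_nonneg_left (pow_le_one₀ h8 h7) h8
            _ = _ := mul_one _
        calc |c| * |r i| ^ 4 ≤ 1 * |r i| := mul_le_mul hc h6 (by positivity) (by norm_num)
          _ ≤ ρ := by linarith
      calc |2 * r i - c * r i ^ 4| ≤ |2 * r i| + |c * r i ^ 4| := abs_sub _ _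
        _ = 2 * |r i| + |c * r i ^ 4| := by rw [abs_mul, abs_two]
        _ ≤ 3 * ρ := by linarith
    have h4 : u i * pa l c (r i) = (u i * pa l c (r i) + pb l c (r i)) - pb l c (r i) := by ring
    have h5 : |u i * pa l c (r i)| ≤ g + 3 * ρ := by
      rw [h4]
      exact (abs_sub _ _).trans (add_le_add h2 h3)
    rw [abs_mul, abs_of_pos (by linarith : 0 < pa l c (r i))] at h5
    have h6 := abs_nonneg (u i)
    nlinarith
  have hK2 : (1 : ℝ) ≤ K ^ 2 := one_le_pow₀ hK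
  have hB : ∀ i, 78732 * |Δ| ^ 3 * |t i / 9 * D2 α ω τ (s i) (t i)| ≤ 157464 * K ^ 5 * σ ^ 2 := by
    intro i
    have h1 : (t i : ℝ) / 9 = D2 α ω τ (s i) (t i) * (τ / (3 * α)) -
        D1 α τ (s i) * (-(2 * ω) / (3 * α * τ)) := by
      unfold D1 D2
      field_simp
      ring
    have h2 : |D1 α τ (s i)| ≤ σ := by
      have h3 : D1 α τ (s i) = u i * D2 α ω τ (s i) (t i) := by
        rw [hu, div_mul_cancel₀ _ (hd0 i)]
      rw [h3, abs_mul]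
      have := hu1 i
      have := h22 i
      have := abs_nonneg (D2 α ω τ (s i) (t i))
      nlinarith
    have h3 : |(t i : ℝ) / 9| ≤ 2 * σ * K ^ 2 := by
      rw [h1]
      refine (abs_sub _ _).trans ?_
      rw [abs_mul, abs_mul]
      have h4 : |τ / (3 * α)| ≤ K ^ 2 := by
        rw [abs_of_pos (by positivity), div_le_iff₀ (by positivity)]
        nlinarith
      have h5 : |-(2 * ω) / (3 * α * τ)| ≤ K ^ 2 := by
        rw [abs_div, abs_neg, abs_mul, abs_two, abs_of_pos (by positivity : 0 < 3 * α * τ)]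
        exact hωK
      have h6 : |D2 α ω τ (s i) (t i)| * |τ / (3 * α)| ≤ σ * K ^ 2 :=
        mul_le_mul (h22 i) h4 (abs_nonneg _) (by linarith)
      have h7 : |D1 α τ (s i)| * |-(2 * ω) / (3 * α * τ)| ≤ σ * K ^ 2 :=
        mul_le_mul h2 h5 (abs_nonneg _) (by linarith)
      linarith
    rw [abs_mul, abs_of_pos hΔ0]
    have h8 : Δ ^ 3 ≤ K ^ 3 := pow_le_pow_left₀ hΔ0.le hΔK 3
    have h9 : |(t i : ℝ) / 9| * |D2 α ω τ (s i) (t i)| ≤ 2 * σ * K ^ 2 * σ :=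
      mul_le_mul h3 (h22 i) (abs_nonneg _) (by positivity)
    calc 78732 * Δ ^ 3 * (|(t i : ℝ) / 9| * |D2 α ω τ (s i) (t i)|) ≤
        78732 * K ^ 3 * (2 * σ * K ^ 2 * σ) := by
          refine mul_le_mul (mul_le_mul_of_nonneg_left h8 (by norm_num)) h9 (by positivity)
            (by positivity)
      _ = _ := by ring
  have hcost : cost c ρ g ≤ 918 / ρ := by
    unfold cost
    have h1 : (1 : ℝ) ≤ 1 / ρ := by
      rw [le_div_iff₀ hρ]
      linarith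
    have h2 : (|c| + g) / ρ ≤ 2 / ρ := by
      gcongr
      linarith
    have h3 : 918 / ρ = 306 * (1 / ρ + 2 / ρ) := by ring
    rw [h3]
    linarith
  have hcost0 : 0 ≤ cost c ρ g := by linarith [cost_ge (c := c) hρ hg0]
  have h918 : 1 ≤ 918 / ρ := by
    rw [le_div_iff₀ hρ]
    linarith
  obtain ⟨G, hG⟩ : ∃ G : ℝ, G = 157464 * K ^ 5 * σ ^ 2 * (918 / ρ) * (E : ℝ) := ⟨_, rfl⟩
  have hG1 : 1 ≤ G := by
    rw [hG]
    have h1 : (1 : ℝ) ≤ 157464 * K ^ 5 * σ ^ 2 := by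
      have h2 : (1 : ℝ) ≤ K ^ 5 := one_le_pow₀ hK
      have h3 : (1 : ℝ) ≤ σ ^ 2 := one_le_pow₀ hσ1
      have h4 : (1 : ℝ) ≤ K ^ 5 * σ ^ 2 := one_le_mul_of_one_le_of_one_le h2 h3
      linarith
    exact one_le_mul_of_one_le_of_one_le (one_le_mul_of_one_le_of_one_le h1 h918) hE1
  have hfin : (∏ a, ((78732 * |Δ| ^ 3 * |t (sel a).1 / 9 * D2 α ω τ (s (sel a).1) (t (sel a).1)|) ^
        (sel a).2 * (|D2 α ω τ (s (sel a).1) (t (sel a).1)| ^ M *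
          |XI ω τ (X (sel a).1) (Y (sel a).1)| ^ N))) *
      (∏ a, (cost c ρ g * (E : ℝ)) ^ (sel a).2) ≤
      (G ^ μ * (σ ^ M * Q' ^ N)) ^ ((M + 1) * (N + 1)) := by
    rw [← Finset.prod_mul_distrib]
    have h1 : ∀ a ∈ (Finset.univ : Finset (Fin ((M + 1) * (N + 1)))),
        (78732 * |Δ| ^ 3 * |t (sel a).1 / 9 * D2 α ω τ (s (sel a).1) (t (sel a).1)|) ^
        (sel a).2 * (|D2 α ω τ (s (sel a).1) (t (sel a).1)| ^ M *
          |XI ω τ (X (sel a).1) (Y (sel a).1)| ^ N) * (cost c ρ g * (E : ℝ)) ^ (sel a).2 ≤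
        G ^ μ * (σ ^ M * Q' ^ N) := by
      intro a _
      obtain ⟨i, hi⟩ : ∃ i, i = (sel a).1 := ⟨_, rfl⟩
      rw [← hi]
      have h2 : (78732 * |Δ| ^ 3 * |t i / 9 * D2 α ω τ (s i) (t i)|) ^ (sel a).2 *
          (cost c ρ g * (E : ℝ)) ^ (sel a).2 ≤ G ^ μ := by
        rw [← mul_pow]
        have h3 : 78732 * |Δ| ^ 3 * |t i / 9 * D2 α ω τ (s i) (t i)| * (cost c ρ g * (E : ℝ)) ≤
            G := by
          rw [hG, mul_assoc (157464 * K ^ 5 * σ ^ 2)]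
          refine mul_le_mul (hB i) (mul_le_mul_of_nonneg_right hcost (by linarith))
            (mul_nonneg hcost0 (by linarith)) (by positivity)
        calc _ ≤ G ^ (sel a).2 := pow_le_pow_left₀ (by positivity) h3 _
          _ ≤ G ^ μ := pow_le_pow_right₀ hG1 (hsel a)
      have h4 : |D2 α ω τ (s i) (t i)| ^ M * |XI ω τ (X i) (Y i)| ^ N ≤ σ ^ M * Q' ^ N :=
        mul_le_mul (pow_le_pow_left₀ (abs_nonneg _) (h22 i) _)
          (pow_le_pow_left₀ (abs_nonneg _) (hξ2 i) _) (by positivity) (by positivity)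
      calc _ = ((78732 * |Δ| ^ 3 * |t i / 9 * D2 α ω τ (s i) (t i)|) ^ (sel a).2 *
          (cost c ρ g * (E : ℝ)) ^ (sel a).2) *
          (|D2 α ω τ (s i) (t i)| ^ M * |XI ω τ (X i) (Y i)| ^ N) := by ring
        _ ≤ G ^ μ * (σ ^ M * Q' ^ N) := mul_le_mul h2 h4 (by positivity) (by positivity)
    refine (Finset.prod_le_prod (fun a _ => by positivity) h1).trans (le_of_eq ?_)
    rw [Finset.prod_const, Finset.card_univ, Fintype.card_fin]
  refine hint.trans ?_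
  have hprod0 : 0 ≤ ∏ a, ((78732 * |Δ| ^ 3 * |t (sel a).1 / 9 *
      D2 α ω τ (s (sel a).1) (t (sel a).1)|) ^ (sel a).2 *
      (|D2 α ω τ (s (sel a).1) (t (sel a).1)| ^ M *
        |XI ω τ (X (sel a).1) (Y (sel a).1)| ^ N)) :=
    Finset.prod_nonneg fun a _ => by positivity
  obtain ⟨R, hR⟩ : ∃ R : ℝ, R = (((4 * M + N + 1) ^ 2 : ℕ) ^ ((M + 1) * (N + 1)) *
        (((M + 1) * (N + 1)).factorial : ℝ) * (24 ^ M) ^ ((M + 1) * (N + 1)) * W) := ⟨_, rfl⟩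
  have hR0 : 0 ≤ R := by rw [hR]; positivity
  rw [← hR] at hup ⊢
  rw [← hG]
  calc _ ≤ 9 ^ ((N + 1) * (M * (M + 1) / 2)) *
      (∏ a, ((78732 * |Δ| ^ 3 * |t (sel a).1 / 9 * D2 α ω τ (s (sel a).1) (t (sel a).1)|) ^
        (sel a).2 * (|D2 α ω τ (s (sel a).1) (t (sel a).1)| ^ M *
          |XI ω τ (X (sel a).1) (Y (sel a).1)| ^ N))) *
      ((∏ a, (cost c ρ g * (E : ℝ)) ^ (sel a).2) * R) :=
        mul_le_mul_of_nonneg_left hup (mul_nonneg (by positivity) hprod0)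
    _ = 9 ^ ((N + 1) * (M * (M + 1) / 2)) *
      ((∏ a, ((78732 * |Δ| ^ 3 * |t (sel a).1 / 9 * D2 α ω τ (s (sel a).1) (t (sel a).1)|) ^
        (sel a).2 * (|D2 α ω τ (s (sel a).1) (t (sel a).1)| ^ M *
          |XI ω τ (X (sel a).1) (Y (sel a).1)| ^ N))) *
      (∏ a, (cost c ρ g * (E : ℝ)) ^ (sel a).2)) * R := by ring
    _ ≤ _ := mul_le_mul_of_nonneg_right (mul_le_mul_of_nonneg_left hfin (by positivity)) hR0

end Pool.Agent.Work.MP_f2148a_nt.M56.GL
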