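import Pool.Agent.Work.MP_f2148a_nt.M56.GL.Iter

set_option autoImplicit false

/-!
# GL/Zero: the zero estimate for the rows, and the selection of rows (all proved)
-/

namespace Pool.Agent.Work.MP_f2148a_nt.M56.GL

open G4 G1

theorem ker_bot {κ : Type*} [Fintype κ] (l c : ℝ) (M N μ : ℕ) (u r : κ → ℝ)
    (hu : Function.Injective u) (hj : ∀ i, jf l c (u i) ≠ 0)
    (hc : ∀ i j, i ≠ j →
      Hf l c (u i) (r i) ^ 3 * ((u j * pa l c (r j) + pb l c (r j)) ^ 3 * jf l c (u j)) ≠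
      Hf l c (u j) (r j) ^ 3 * ((u i * pa l c (r i) + pb l c (r i)) ^ 3 * jf l c (u i)))
    (hμ : 2 * (N + 1) * M + 3 * N * (N + 1) < 2 * ((Fintype.card κ - N) * (μ + 1 - N))) :
    GR.kerLe (fun p : κ × ℕ => p.2) (fun p => rowW l c M N (u p.1) (r p.1) p.2) μ = ⊥ := by
  rw [eq_bot_iff]
  intro x hx
  rw [Submodule.mem_bot]
  by_contra hx0
  have h := zero_estimate (PP l c) (BB l c) (Ph1 l c) (Ph2 l c) (Lm l c) (PP_deg l c)
    (BB_deg l c) (BB_deg' l c) (dl_Ph1 l c) (dl_Ph2 l c) (Finset.univ : Finset κ) u r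
    (fun i _ j _ hij => fun h => hij (hu h))
    (fun i _ => by
      rw [eval_PP]
      exact neg_ne_zero.2 (hj i))
    (fun i _ j _ hij => by
      rw [ev_Ph1, ev_Ph1, ev_Ph2, ev_Ph2]
      exact hc i j hij) M N (μ + 1) (io (fo M N x)) (fo_ne M N x hx0) (fo_deg M N x)
    (fo_deg' M N x) (fun i _ m hm => by
      rw [← row_dot]
      exact hx (i, m) (Nat.lt_succ_iff.1 hm))
  rw [Finset.card_univ] at h
  omega

theorem exists_det {F : Type*} [Field F] {D : ℕ} {ρ : Type*} (R : ρ → Fin D → F)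
    (h : ∀ x : Fin D → F, (∀ r, R r ⬝ᵥ x = 0) → x = 0) :
    ∃ sel : Fin D → ρ, (Matrix.of fun a => R (sel a)).det ≠ 0 := by
  classical
  have hspan : Submodule.span F (Set.range R) = ⊤ := by
    by_contra hne
    obtain ⟨f, hf0, hf⟩ := Submodule.exists_le_ker_of_lt_top _ (lt_top_iff_ne_top.2 hne)
    apply hf0
    have h1 : ∀ y, f y = y ⬝ᵥ (fun a => f (Pi.single a 1)) := by
      intro y
      conv_lhs => rw [← Finset.univ_sum_single y]
      rw [map_sum, dotProduct]
      refine Finset.sum_congr rfl fun a _ => ?_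
      have h2 : (Pi.single a (y a) : Fin D → F) = y a • Pi.single a 1 := by
        rw [← Pi.single_smul, smul_eq_mul, mul_one]
      rw [h2, map_smul, smul_eq_mul]
    have h3 := h (fun a => f (Pi.single a 1)) (fun r => by
      rw [← h1]
      exact hf (Submodule.subset_span ⟨r, rfl⟩))
    refine LinearMap.ext fun y => ?_
    rw [h1, h3, dotProduct_zero]
    rfl
  obtain ⟨κ, a, ha, hs, hli⟩ := exists_linearIndependent' F R
  rw [hspan] at hs
  let B : Module.Basis κ F (Fin D → F) := Module.Basis.mk hli (by rw [hs])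
  have : Fintype κ := FiniteDimensional.fintypeBasisIndex B
  have hcard : Fintype.card κ = D := by
    rw [← Module.finrank_eq_card_basis B, Module.finrank_fin_fun]
  let e : Fin D ≃ κ := (finCongr hcard.symm).trans (Fintype.equivFin κ).symm
  refine ⟨fun i => a (e i), ?_⟩
  have hli' : LinearIndependent F (fun i => R (a (e i))) := hli.comp e e.injective
  have h1 := (Matrix.linearIndependent_rows_iff_isUnit (A := Matrix.of fun i => R (a (e i)))).1 hli'
  rw [Matrix.isUnit_iff_isUnit_det] at h1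
  exact h1.ne_zero

theorem exists_sel {κ : Type*} [Fintype κ] (l c : ℝ) (M N μ : ℕ) (u r : κ → ℝ)
    (hu : Function.Injective u) (hj : ∀ i, jf l c (u i) ≠ 0)
    (hc : ∀ i j, i ≠ j →
      Hf l c (u i) (r i) ^ 3 * ((u j * pa l c (r j) + pb l c (r j)) ^ 3 * jf l c (u j)) ≠
      Hf l c (u j) (r j) ^ 3 * ((u i * pa l c (r i) + pb l c (r i)) ^ 3 * jf l c (u i)))
    (hμ : 2 * (N + 1) * M + 3 * N * (N + 1) < 2 * ((Fintype.card κ - N) * (μ + 1 - N))) :
    ∃ sel : Fin ((M + 1) * (N + 1)) → κ × ℕ,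
      (Matrix.of fun a => rowW l c M N (u (sel a).1) (r (sel a).1) (sel a).2).det ≠ 0 ∧
      (∀ a, (sel a).2 ≤ μ) ∧
      ∀ p : κ × ℕ, rowW l c M N (u p.1) (r p.1) p.2 ∈ GR.spanLe (fun p : κ × ℕ => p.2)
        (fun p => rowW l c M N (u p.1) (r p.1) p.2) sel p.2 := by
  have hk := ker_bot l c M N μ u r hu hj hc hμ
  obtain ⟨sel, h1, h2⟩ := GR.exists_greedy (fun p : κ × ℕ => p.2)
    (fun p => rowW l c M N (u p.1) (r p.1) p.2) (exists_det _ fun x hx => by
      have h3 : x ∈ GR.kerLe (fun p : κ × ℕ => p.2)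
        (fun p => rowW l c M N (u p.1) (r p.1) p.2) μ := fun r _ => hx r
      rw [hk, Submodule.mem_bot] at h3
      exact h3)
  refine ⟨sel, h1, fun a => ?_, h2⟩
  by_contra hcon
  rw [not_le] at hcon
  have h3 := GR.card_greedy (fun p : κ × ℕ => p.2)
    (fun p => rowW l c M N (u p.1) (r p.1) p.2) h1 h2 μ
  rw [hk, finrank_bot, Finset.card_eq_zero] at h3
  have h4 : a ∈ Finset.univ.filter fun a => μ < (sel a).2 := by
    rw [Finset.mem_filter]
    exact ⟨Finset.mem_univ a, hcon⟩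
  rw [h3] at h4
  exact absurd h4 (Finset.notMem_empty a)

end Pool.Agent.Work.MP_f2148a_nt.M56.GL
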